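import Pool.Agent.FBL.Defs

/-! # Existence of small caps at a peak point -/

open Set Metric Topology Filter

namespace Pool.Agent.FBL

variable {E : Type} [NormedAddCommGroup E] [NormedSpace ℂ E] [FiniteDimensional ℂ E]
  [Nontrivial E]

omit [FiniteDimensional ℂ E] [Nontrivial E] in
private theorem capex_delta [ProperSpace E] {D : Set E} {a : E} {N : Set E} {P : E → ℂ}
    (hP : ContinuousOn P N) (hpeak : ∀ s ∈ closure D ∩ N, s ≠ a → (P s).re < 0) {r : ℝ}
    (hr : 0 < r) (hrN : closedBall a r ⊆ N) :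
    ∃ δ > 0, ∀ s ∈ closure D ∩ sphere a r, (P s).re ≤ -δ := by
  have hc : IsCompact (closure D ∩ sphere a r) := (isCompact_sphere a r).inter_left isClosed_closure
  have hsub : closure D ∩ sphere a r ⊆ N :=
    inter_subset_right.trans (sphere_subset_closedBall.trans hrN)
  rcases eq_empty_or_nonempty (closure D ∩ sphere a r) with he | hne
  · exact ⟨1, one_pos, fun s hs => by rw [he] at hs; exact hs.elim⟩
  · obtain ⟨x, hx, hmax⟩ := hc.exists_isMaxOn hne
      (Complex.continuous_re.comp_continuousOn (hP.mono hsub))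
    have hxa : x ≠ a := by
      rintro rfl
      have := hx.2
      rw [mem_sphere, dist_self] at this
      exact hr.ne this
    refine ⟨-(P x).re, neg_pos.2 (hpeak x ⟨hx.1, hsub hx⟩ hxa), fun s hs => ?_⟩
    rw [neg_neg]
    exact hmax hs

theorem exists_cap {D : Set E} (hD : IsOpen D) {a : E} (ha : a ∈ frontier D) {N : Set E}
    (hN : IsOpen N) (haN : a ∈ N) {P : E → ℂ} (hP : DifferentiableOn ℂ P N) (hPa : P a = 0)
    (hpeak : ∀ s ∈ closure D ∩ N, s ≠ a → (P s).re < 0) {W : Set E} (hW : W ∈ 𝓝 a) :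
    ∃ (T : Set E) (Q : E → ℂ) (r : ℝ), 0 < r ∧ Cap T (frontier D ∩ closedBall a r) Q ∧
      T ⊆ D ∧ closure T ⊆ W ∧ frontier D ∩ closedBall a r ⊆ W := by
  have : ProperSpace E := FiniteDimensional.proper ℂ E
  obtain ⟨r, hr, hrNW⟩ := Metric.nhds_basis_closedBall.mem_iff.1
    (inter_mem (hN.mem_nhds haN) hW)
  have hrN : closedBall a r ⊆ N := fun s hs => (hrNW hs).1
  have hrW : closedBall a r ⊆ W := fun s hs => (hrNW hs).2
  obtain ⟨δ, hδ, hsph⟩ := capex_delta hP.continuousOn hpeak hr hrN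
  have haD : a ∉ D := by
    rw [hD.frontier_eq] at ha
    exact ha.2
  set Q : E → ℂ := fun s => 1 + ((δ⁻¹ : ℝ) : ℂ) * P s with hQ
  have hre : ∀ s, (Q s).re = 1 + δ⁻¹ * (P s).re := by
    intro s
    rw [hQ]
    simp only [Complex.add_re, Complex.one_re, Complex.re_ofReal_mul]
  have hQd : DifferentiableOn ℂ Q N := (hP.const_mul _).const_add _
  have hpc : ContinuousOn (fun s => (Q s).re) N :=
    Complex.continuous_re.comp_continuousOn hQd.continuousOn
  set T : Set E := (D ∩ ball a r) ∩ (fun s => (Q s).re) ⁻¹' Ioi 0 with hT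
  have hTD : T ⊆ D := fun s hs => hs.1.1
  have hTb : T ⊆ ball a r := fun s hs => hs.1.2
  have hcb : closure T ⊆ closedBall a r :=
    (closure_mono hTb).trans closure_ball_subset_closedBall
  have hcD : closure T ⊆ closure D := closure_mono hTD
  have hδ' : 0 < δ⁻¹ := inv_pos.2 hδ
  have hlt : ∀ s ∈ closure D ∩ N, s ≠ a → (Q s).re < 1 := by
    intro s hs hsa
    rw [hre]
    have := mul_neg_of_pos_of_neg hδ' (hpeak s hs hsa)
    linarith
  refine ⟨T, Q, r, hr, ⟨?_, ?_, ?_, ?_, ?_, ?_, ?_, ?_, ?_, ?_, ?_⟩, hTD, hcb.trans hrW,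
    inter_subset_right.trans hrW⟩
  · exact (hpc.mono ((inter_subset_right.trans ball_subset_closedBall).trans hrN)).isOpen_inter_preimage
      (hD.inter isOpen_ball) isOpen_Ioi
  · exact isBounded_ball.subset hTb
  · exact ⟨N, hN, hcb.trans hrN, hQd⟩
  · exact (isCompact_closedBall a r).inter_left isClosed_frontier
  · exact ⟨a, ha, mem_closedBall_self hr.le⟩
  · intro s hs hsT
    have := hs.1
    rw [hD.frontier_eq] at this
    exact this.2 (hTD hsT)
  · intro s hs
    by_cases hsa : s = a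
    · rw [hsa, hre, hPa]
      simp
    · exact (hlt s ⟨hcD hs, hrN (hcb hs)⟩ hsa).le
  · intro s hs
    refine hlt s ⟨subset_closure (hTD hs), hrN (ball_subset_closedBall (hTb hs))⟩ ?_
    rintro rfl
    exact haD (hTD hs)
  · exact fun s hs => hs.2
  · intro s hs hpos
    have hsr : s ∈ ball a r := by
      rcases lt_or_eq_of_le (mem_closedBall.1 (hcb hs)) with h | h
      · exact mem_ball.2 h
      · exfalso
        have h1 := hsph s ⟨hcD hs, mem_sphere.2 h⟩
        rw [hre] at hpos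
        have h2 : δ⁻¹ * (P s).re ≤ δ⁻¹ * -δ := mul_le_mul_of_nonneg_left h1 hδ'.le
        have h3 : δ⁻¹ * -δ = -1 := by field_simp
        linarith
    by_cases hsD : s ∈ D
    · exact Or.inl ⟨⟨hsD, hsr⟩, hpos⟩
    · right
      refine ⟨?_, ball_subset_closedBall hsr⟩
      rw [hD.frontier_eq]
      exact ⟨hcD hs, hsD⟩
  · intro κ hκ
    have h1 : ContinuousAt (fun s => (Q s).re) a := hpc.continuousAt (hN.mem_nhds haN)
    have h2 : max κ 0 < (fun s => (Q s).re) a := by
      show max κ 0 < (Q a).re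
      rw [hre, hPa]
      simpa using max_lt hκ one_pos
    have h3 : ∀ᶠ s in 𝓝 a, max κ 0 < (Q s).re := h1.eventually (lt_mem_nhds h2)
    have h4 : ∃ᶠ s in 𝓝 a, s ∈ D := by
      have : a ∈ closure D := frontier_subset_closure ha
      exact mem_closure_iff_frequently.1 this
    obtain ⟨s, hsD, hs1, hs2⟩ := (h4.and_eventually (h3.and (ball_mem_nhds a hr))).exists
    exact ⟨s, ⟨⟨hsD, hs2⟩, (le_max_right _ _).trans_lt hs1⟩, (le_max_left _ _).trans_lt hs1⟩

end Pool.Agent.FBL
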