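import Pool.Agent.FBL.Defs
import Pool.Agent.YTDA.Osgood

/-! # Taylor coefficients in the leaf variable -/

open Set Metric Topology Filter

namespace Pool.Agent.FBL

variable {E : Type} [NormedAddCommGroup E] [NormedSpace ℂ E] [FiniteDimensional ℂ E]

/-- iterated derivatives in the first variable -/
noncomputable def coefD {Y : Type} [NormedAddCommGroup Y] [NormedSpace ℂ Y] (h : ℂ × E → Y) :
    ℕ → ℂ × E → Y
  | 0 => h
  | k + 1 => fun x => fderiv ℂ (coefD h k) x ((1 : ℂ), (0 : E))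

theorem coefD_differentiableOn {Y : Type} [NormedAddCommGroup Y] [NormedSpace ℂ Y]
    [FiniteDimensional ℂ Y] {V : Set (ℂ × E)} (hV : IsOpen V) {h : ℂ × E → Y}
    (hd : DifferentiableOn ℂ h V) (k : ℕ) : DifferentiableOn ℂ (coefD h k) V := by
  induction k with
  | zero => exact hd
  | succ k ih => exact YTDA.differentiableOn_fderiv_apply hV ih _

theorem coefD_eq {Y : Type} [NormedAddCommGroup Y] [NormedSpace ℂ Y]
    [FiniteDimensional ℂ Y] {V : Set (ℂ × E)} (hV : IsOpen V) {h : ℂ × E → Y}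
    (hd : DifferentiableOn ℂ h V) (k : ℕ) :
    ∀ (u : ℂ) (s : E), (u, s) ∈ V →
      coefD h k (u, s) = iteratedDeriv k (fun z : ℂ => h (z, s)) u := by
  induction k with
  | zero => intro u s _; simp [coefD]
  | succ k ih =>
    intro u s hu
    have h1 : HasFDerivAt (coefD h k) (fderiv ℂ (coefD h k) (u, s)) (u, s) :=
      ((coefD_differentiableOn hV hd k).differentiableAt (hV.mem_nhds hu)).hasFDerivAt
    have h2 : HasDerivAt (fun z : ℂ => ((z, s) : ℂ × E)) ((1 : ℂ), (0 : E)) u :=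
      (hasDerivAt_id u).prodMk (hasDerivAt_const u s)
    have h3 : HasDerivAt (fun z : ℂ => coefD h k (z, s))
        (fderiv ℂ (coefD h k) (u, s) ((1 : ℂ), (0 : E))) u :=
      HasFDerivAt.comp_hasDerivAt (f := fun z : ℂ => ((z, s) : ℂ × E)) u h1 h2
    have h4 : (fun z : ℂ => coefD h k (z, s)) =ᶠ[𝓝 u]
        iteratedDeriv k (fun z : ℂ => h (z, s)) := by
      have h5 : ∀ᶠ z : ℂ in 𝓝 u, (z, s) ∈ V := by
        have h6 : Continuous fun z : ℂ => ((z, s) : ℂ × E) := by fun_prop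
        exact h6.continuousAt.preimage_mem_nhds (hV.mem_nhds hu)
      filter_upwards [h5] with z hz using ih z s hz
    rw [iteratedDeriv_succ, ← h4.deriv_eq]
    exact h3.deriv.symm

/-- Taylor coefficients in `u` at `u = 0` of a function holomorphic near `closedBall 0 r × {s}` -/
theorem exists_coeff {Y : Type} [NormedAddCommGroup Y] [NormedSpace ℂ Y] [FiniteDimensional ℂ Y]
    {V : Set (ℂ × E)} (hV : IsOpen V) {h : ℂ × E → Y} (hd : DifferentiableOn ℂ h V) :
    ∃ c : ℕ → E → Y, DifferentiableOn ℂ (c 0) {s | ((0 : ℂ), s) ∈ V} ∧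
      (∀ k, DifferentiableOn ℂ (c k) {s | ((0 : ℂ), s) ∈ V}) ∧
      (∀ s, ∀ ρ > 0, (∀ u : ℂ, ‖u‖ ≤ ρ → (u, s) ∈ V) → ∀ M : ℝ,
        (∀ u : ℂ, ‖u‖ = ρ → ‖h (u, s)‖ ≤ M) → ∀ k, ‖c k s‖ ≤ M / ρ ^ k) ∧
      ∀ s, ∀ ρ > 0, (∀ u : ℂ, ‖u‖ < ρ → (u, s) ∈ V) → ∀ u : ℂ, ‖u‖ < ρ →
        HasSum (fun k : ℕ => u ^ k • c k s) (h (u, s)) := by
  have : CompleteSpace Y := FiniteDimensional.complete ℂ Y
  have hslice : ∀ (s : E) (u : ℂ), (u, s) ∈ V →
      DifferentiableAt ℂ (fun z : ℂ => h (z, s)) u := by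
    intro s u hu
    have h1 : DifferentiableAt ℂ h (u, s) := hd.differentiableAt (hV.mem_nhds hu)
    have h2 : DifferentiableAt ℂ (fun z : ℂ => ((z, s) : ℂ × E)) u :=
      differentiableAt_id.prodMk (differentiableAt_const s)
    exact DifferentiableAt.comp (f := fun z : ℂ => ((z, s) : ℂ × E)) u h1 h2
  have hck : ∀ k, DifferentiableOn ℂ
      (fun s : E => ((k.factorial : ℂ))⁻¹ • coefD h k ((0 : ℂ), s)) {s | ((0 : ℂ), s) ∈ V} := by
    intro k
    have h1 : DifferentiableOn ℂ (fun s : E => coefD h k ((0 : ℂ), s)) {s | ((0 : ℂ), s) ∈ V} := by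
      have h2 : Differentiable ℂ (fun s : E => (((0 : ℂ), s) : ℂ × E)) :=
        (differentiable_const _).prodMk differentiable_id
      exact (coefD_differentiableOn hV hd k).comp h2.differentiableOn fun s hs => hs
    exact h1.const_smul _
  refine ⟨fun k s => ((k.factorial : ℂ))⁻¹ • coefD h k ((0 : ℂ), s), hck 0, hck, ?_, ?_⟩
  · intro s ρ hρ hVs M hM k
    have h0 : ((0 : ℂ), s) ∈ V := hVs 0 (by simpa using hρ.le)
    have h1 : DiffContOnCl ℂ (fun z : ℂ => h (z, s)) (ball 0 ρ) := by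
      have h2 : DifferentiableOn ℂ (fun z : ℂ => h (z, s)) (closure (ball 0 ρ)) := by
        rw [closure_ball (0 : ℂ) hρ.ne']
        intro z hz
        exact (hslice s z (hVs z (by simpa using hz))).differentiableWithinAt
      exact h2.diffContOnCl
    have h3 := Complex.norm_iteratedDeriv_le_of_forall_mem_sphere_norm_le k hρ h1
      (C := M) fun z hz => hM z (by simpa using hz)
    have h4 : (0 : ℝ) < k.factorial := by exact_mod_cast k.factorial_pos
    show ‖((k.factorial : ℂ))⁻¹ • coefD h k ((0 : ℂ), s)‖ ≤ M / ρ ^ k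
    rw [norm_smul, norm_inv, Complex.norm_natCast, coefD_eq hV hd k 0 s h0, inv_mul_le_iff₀ h4]
    calc ‖iteratedDeriv k (fun z : ℂ => h (z, s)) 0‖ ≤ k.factorial * M / ρ ^ k := h3
      _ = k.factorial * (M / ρ ^ k) := by ring
  · intro s ρ hρ hVs u hu
    have h0 : ((0 : ℂ), s) ∈ V := hVs 0 (by simpa using hρ)
    have h1 : DifferentiableOn ℂ (fun z : ℂ => h (z, s)) (ball 0 ρ) := fun z hz =>
      (hslice s z (hVs z (by simpa using hz))).differentiableWithinAt
    have h2 := Complex.hasSum_taylorSeries_on_ball h1 (z := u) (by simpa using hu)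
    refine h2.congr_fun ?_
    intro k
    show u ^ k • ((k.factorial : ℂ))⁻¹ • coefD h k ((0 : ℂ), s) = _
    rw [coefD_eq hV hd k 0 s h0, sub_zero, smul_comm]

end Pool.Agent.FBL
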