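import Pool.Agent.FBL.Defs

/-! # The extension stays in `Ω` -/

open Set Metric Topology Filter

namespace Pool.Agent.FBL

variable {E : Type} [NormedAddCommGroup E] [NormedSpace ℂ E] [FiniteDimensional ℂ E]
  [Nontrivial E]

variable {b : Bool} {T S : Set E} {Q : E → ℂ} {Ω : Set (ℂ × E)} {F G : ℂ × E → ℂ × E}
  {V : Set (ℂ × E)} {h H : ℂ × E → ℂ × E}

/-- the disc family -/
noncomputable def cA_arc (Q : E → ℂ) (κ : ℂ) (Lam : ℝ) (l : ℝ) (s : E) : ℂ × E :=
  (κ * Complex.exp ((l : ℂ) * (Lam : ℂ) * Q s), s)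

omit [FiniteDimensional ℂ E] [Nontrivial E] in
theorem cA_diffAt (hc : Cap T S Q) {s : E} (hs : s ∈ closure T) : DifferentiableAt ℂ Q s := by
  obtain ⟨W, hW, hTW, hd⟩ := hc.diff
  exact (hd s (hTW hs)).differentiableAt (hW.mem_nhds (hTW hs))

omit [FiniteDimensional ℂ E] [Nontrivial E] in
theorem cA_nonneg (hc : Cap T S Q) {s : E} (hs : s ∈ closure T) : 0 ≤ (Q s).re := by
  have h1 : ContinuousAt (fun s => (Q s).re) s :=
    Complex.continuous_re.continuousAt.comp (cA_diffAt hc hs).continuousAt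
  have h2 : ∃ᶠ x in 𝓝 s, x ∈ T := mem_closure_iff_frequently.1 hs
  by_contra hlt
  rw [not_le] at hlt
  have h3 : ∀ᶠ x in 𝓝 s, (Q x).re < 0 := h1.eventually_lt_const hlt
  obtain ⟨x, hx, hx'⟩ := (h2.and_eventually h3).exists
  exact absurd (hc.pos x hx) (not_lt.2 hx'.le)

omit [FiniteDimensional ℂ E] [Nontrivial E] in
theorem cA_norm {κ : ℂ} (hκ : ‖κ‖ = 1) (Lam l : ℝ) (s : E) :
    ‖(cA_arc Q κ Lam l s).1‖ = Real.exp (l * Lam * (Q s).re) := by
  simp only [cA_arc, norm_mul, hκ, one_mul, Complex.norm_exp]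
  congr 1
  rw [← Complex.ofReal_mul, Complex.re_ofReal_mul]

omit [FiniteDimensional ℂ E] [Nontrivial E] in
theorem cA_memK (b : Bool) {κ : ℂ} (hκ : ‖κ‖ = 1) {Lam l R : ℝ} {s : E}
    (hR : |l * Lam * (Q s).re| ≤ R) : (cA_arc Q κ Lam l s).1 ∈ K b (Real.exp R) := by
  have h1 := abs_le.1 hR
  refine mem_K_exp b ?_ ?_
  · rw [cA_norm hκ]; exact Real.exp_le_exp.2 (by linarith [h1.1])
  · rw [cA_norm hκ]; exact Real.exp_le_exp.2 h1.2

omit [FiniteDimensional ℂ E] [Nontrivial E] in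
theorem cA_memLeaf (b : Bool) {κ : ℂ} (hκ : ‖κ‖ = 1) (Lam l : ℝ) (s : E) :
    (cA_arc Q κ Lam l s).1 ∈ Leaf b := by
  intro _
  have : ‖(cA_arc Q κ Lam l s).1‖ ≠ 0 := by
    rw [cA_norm hκ]; exact (Real.exp_pos _).ne'
  exact norm_ne_zero_iff.1 this

omit [FiniteDimensional ℂ E] [Nontrivial E] in
/-- the data of the truncated cap -/
theorem cA_trunc (sit : Sit b T S Q Ω F G V h H) {s₀ : E} (hs₀ : s₀ ∈ T) (Lam : ℝ) :
    ∃ T' : Set E, IsOpen T' ∧ T' ⊆ T ∧ s₀ ∈ T' ∧ closure T' ⊆ T ∧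
      ∀ κ : ℂ, ‖κ‖ = 1 → ∀ l ∈ Icc (0 : ℝ) 1, ∀ s ∈ frontier T',
        cA_arc Q κ Lam l s ∈ V ∧ H (cA_arc Q κ Lam l s) = h (cA_arc Q κ Lam l s) := by
  obtain ⟨δ, hδ, hnear⟩ := sit.near (Real.exp |Lam|)
  obtain ⟨η, hη, hcore⟩ := sit.core
  have hcl : IsClosed S := sit.cap.cptS.isClosed
  have hsS : s₀ ∉ S := fun hh => sit.cap.disj s₀ hh hs₀
  have hpos : 0 < infDist s₀ S := (hcl.notMem_iff_infDist_pos sit.cap.neS).1 hsS
  have hp : 0 < (Q s₀).re := sit.cap.pos s₀ hs₀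
  set δ₁ : ℝ := min (δ / 2) (infDist s₀ S / 2) with hδ₁
  have hδ₁0 : 0 < δ₁ := lt_min (by linarith) (by linarith)
  have hδ₁δ : δ₁ < δ := (min_le_left _ _).trans_lt (by linarith)
  have hδ₁s : δ₁ < infDist s₀ S := (min_le_right _ _).trans_lt (by linarith)
  set δ₂ : ℝ := min ((Q s₀).re / 2) (η / (|Lam| + 1)) with hδ₂
  have hL1 : 0 < |Lam| + 1 := by positivity
  have hδ₂0 : 0 < δ₂ := lt_min (by linarith) (div_pos hη hL1)
  have hδ₂s : δ₂ < (Q s₀).re := (min_le_left _ _).trans_lt (by linarith)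
  have hδ₂η : |Lam| * δ₂ ≤ η := by
    calc |Lam| * δ₂ ≤ |Lam| * (η / (|Lam| + 1)) :=
          mul_le_mul_of_nonneg_left (min_le_right _ _) (abs_nonneg _)
      _ ≤ (|Lam| + 1) * (η / (|Lam| + 1)) :=
          mul_le_mul_of_nonneg_right (by linarith) (div_pos hη hL1).le
      _ = η := by field_simp
  have hcQ : ContinuousOn (fun s => (Q s).re) (closure T) := fun s hs =>
    (Complex.continuous_re.continuousAt.comp (cA_diffAt sit.cap hs).continuousAt).continuousWithinAt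
  refine ⟨{s | s ∈ T ∧ δ₁ < infDist s S ∧ δ₂ < (Q s).re}, ?_, fun s hs => hs.1,
    ⟨hs₀, hδ₁s, hδ₂s⟩, ?_, ?_⟩
  · have h1 : IsOpen (T ∩ (fun s => (Q s).re) ⁻¹' (Ioi δ₂)) :=
      (hcQ.mono subset_closure).isOpen_inter_preimage sit.cap.isOpen isOpen_Ioi
    have h2 : IsOpen {s : E | δ₁ < infDist s S} :=
      isOpen_lt continuous_const (continuous_infDist_pt S)
    have h3 : {s | s ∈ T ∧ δ₁ < infDist s S ∧ δ₂ < (Q s).re} =
        (T ∩ (fun s => (Q s).re) ⁻¹' (Ioi δ₂)) ∩ {s : E | δ₁ < infDist s S} := by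
      ext s; constructor
      · rintro ⟨a, c, d⟩; exact ⟨⟨a, d⟩, c⟩
      · rintro ⟨⟨a, d⟩, c⟩; exact ⟨a, c, d⟩
    rw [h3]; exact h1.inter h2
  · intro s hs
    have h1 : s ∈ closure T := closure_mono (fun x hx => hx.1) hs
    have h2 : δ₁ ≤ infDist s S := by
      have : closure {s | s ∈ T ∧ δ₁ < infDist s S ∧ δ₂ < (Q s).re} ⊆ {s | δ₁ ≤ infDist s S} :=
        closure_minimal (fun x hx => hx.2.1.le)
          (isClosed_le continuous_const (continuous_infDist_pt S))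
      exact this hs
    have h3 : δ₂ ≤ (Q s).re := by
      by_contra hlt
      rw [not_le] at hlt
      have h4 : ∀ᶠ x in 𝓝 s, (Q x).re < δ₂ :=
        (Complex.continuous_re.continuousAt.comp
          (cA_diffAt sit.cap h1).continuousAt).eventually_lt_const hlt
      obtain ⟨x, hx, hx'⟩ := ((mem_closure_iff_frequently.1 hs).and_eventually h4).exists
      exact absurd hx.2.2 (not_lt.2 hx'.le)
    rcases sit.cap.bdry s h1 (hδ₂0.trans_le h3) with h4 | h4
    · exact h4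
    · exact absurd (infDist_zero_of_mem h4) (hδ₁0.trans_le h2).ne'
  · intro κ hκ l hl s hs
    have hop : IsOpen {s | s ∈ T ∧ δ₁ < infDist s S ∧ δ₂ < (Q s).re} := by
      have h1 : IsOpen (T ∩ (fun s => (Q s).re) ⁻¹' (Ioi δ₂)) :=
        (hcQ.mono subset_closure).isOpen_inter_preimage sit.cap.isOpen isOpen_Ioi
      have h2 : IsOpen {s : E | δ₁ < infDist s S} :=
        isOpen_lt continuous_const (continuous_infDist_pt S)
      have h3 : {s | s ∈ T ∧ δ₁ < infDist s S ∧ δ₂ < (Q s).re} =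
          (T ∩ (fun s => (Q s).re) ⁻¹' (Ioi δ₂)) ∩ {s : E | δ₁ < infDist s S} := by
        ext s; constructor
        · rintro ⟨a, c, d⟩; exact ⟨⟨a, d⟩, c⟩
        · rintro ⟨⟨a, d⟩, c⟩; exact ⟨a, c, d⟩
      rw [h3]; exact h1.inter h2
    rw [hop.frontier_eq] at hs
    have h1 : s ∈ closure T := closure_mono (fun x hx => hx.1) hs.1
    have h2 : δ₁ ≤ infDist s S := by
      have : closure {s | s ∈ T ∧ δ₁ < infDist s S ∧ δ₂ < (Q s).re} ⊆ {s | δ₁ ≤ infDist s S} :=
        closure_minimal (fun x hx => hx.2.1.le)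
          (isClosed_le continuous_const (continuous_infDist_pt S))
      exact this hs.1
    have h3 : δ₂ ≤ (Q s).re := by
      by_contra hlt
      rw [not_le] at hlt
      have h4 : ∀ᶠ x in 𝓝 s, (Q x).re < δ₂ :=
        (Complex.continuous_re.continuousAt.comp
          (cA_diffAt sit.cap h1).continuousAt).eventually_lt_const hlt
      obtain ⟨x, hx, hx'⟩ := ((mem_closure_iff_frequently.1 hs.1).and_eventually h4).exists
      exact absurd hx.2.2 (not_lt.2 hx'.le)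
    have hsT : s ∈ T := by
      rcases sit.cap.bdry s h1 (hδ₂0.trans_le h3) with h4 | h4
      · exact h4
      · exact absurd (infDist_zero_of_mem h4) (hδ₁0.trans_le h2).ne'
    have h0 : 0 ≤ (Q s).re := cA_nonneg sit.cap h1
    have hle : (Q s).re ≤ 1 := sit.cap.le_one s h1
    have hl0 : 0 ≤ l := hl.1
    have hl1 : l ≤ 1 := hl.2
    have habs : |l * Lam * (Q s).re| = l * |Lam| * (Q s).re := by
      rw [abs_mul, abs_mul, abs_of_nonneg hl0, abs_of_nonneg h0]
    have hlL : l * |Lam| ≤ |Lam| := by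
      have := mul_le_mul_of_nonneg_right hl1 (abs_nonneg Lam)
      linarith
    have hlL0 : 0 ≤ l * |Lam| := mul_nonneg hl0 (abs_nonneg _)
    by_cases hd : δ₁ < infDist s S
    · have hq : (Q s).re ≤ δ₂ := by
        by_contra hh
        exact hs.2 ⟨hsT, hd, not_le.1 hh⟩
      have hK : (cA_arc Q κ Lam l s).1 ∈ K b (Real.exp η) := by
        refine cA_memK b hκ ?_
        rw [habs]
        calc l * |Lam| * (Q s).re ≤ |Lam| * δ₂ :=
              mul_le_mul hlL hq h0 (abs_nonneg _)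
          _ ≤ η := hδ₂η
      exact hcore _ hK s hsT
    · have hK : (cA_arc Q κ Lam l s).1 ∈ K b (Real.exp |Lam|) := by
        refine cA_memK b hκ ?_
        rw [habs]
        calc l * |Lam| * (Q s).re ≤ |Lam| * 1 :=
              mul_le_mul hlL hle h0 (abs_nonneg _)
          _ = |Lam| := mul_one _
      exact hnear _ hK s hsT ((not_lt.1 hd).trans_lt hδ₁δ)

theorem H_mem (sit : Sit b T S Q Ω F G V h H) : ∀ u ∈ Leaf b, ∀ s ∈ T, H (u, s) ∈ Ω := by
  intro u₀ hu₀ s₀ hs₀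
  obtain ⟨η, hη, hcore⟩ := sit.core
  by_cases hK : u₀ ∈ K b (Real.exp η)
  · obtain ⟨h1, h2⟩ := hcore u₀ hK s₀ hs₀
    rw [h2]
    exact sit.inside _ h1 hs₀
  have hne : u₀ ≠ 0 := by
    intro h0
    subst h0
    apply hK
    refine ⟨hu₀, ?_, ?_⟩
    · rw [norm_zero]; exact (Real.exp_pos _).le
    · cases b
      · simpa [e2] using hη.le
      · exact absurd rfl (hu₀ rfl)
  have hp : 0 < (Q s₀).re := sit.cap.pos s₀ hs₀
  set Lam : ℝ := Real.log ‖u₀‖ / (Q s₀).re with hLam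
  set κ : ℂ := u₀ * Complex.exp (-((Lam : ℂ) * Q s₀)) with hκdef
  have hκ : ‖κ‖ = 1 := by
    rw [hκdef, norm_mul, Complex.norm_exp, Complex.neg_re, Complex.re_ofReal_mul, hLam,
      div_mul_cancel₀ _ hp.ne', Real.exp_neg, Real.exp_log (norm_pos_iff.2 hne)]
    exact mul_inv_cancel₀ (norm_ne_zero_iff.2 hne)
  obtain ⟨T', hT'o, hT'T, hs₀T', hclT, hfr⟩ := cA_trunc sit hs₀ Lam
  have hbdd : Bornology.IsBounded T' := sit.cap.bdd.subset hT'T
  have hcpt : IsCompact (closure T') := hbdd.isCompact_closure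
  have hopen : IsOpen (Leaf b ×ˢ T) := (isOpen_Leaf b).prod sit.cap.isOpen
  have hmem : ∀ (l : ℝ) (s : E), s ∈ T → cA_arc Q κ Lam l s ∈ Leaf b ×ˢ T := fun l s hs =>
    ⟨cA_memLeaf b hκ Lam l s, hs⟩
  have hHd : ∀ (l : ℝ) (s : E), s ∈ T → DifferentiableAt ℂ H (cA_arc Q κ Lam l s) :=
    fun l s hs => (sit.dH _ (hmem l s hs)).differentiableAt (hopen.mem_nhds (hmem l s hs))
  -- joint continuity
  have hgc : ∀ (l : ℝ) (s : E), s ∈ T →
      ContinuousAt (fun x : ℝ × E => H (cA_arc Q κ Lam x.1 x.2)) (l, s) := by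
    intro l s hs
    have h1 : ContinuousAt (fun x : ℝ × E => cA_arc Q κ Lam x.1 x.2) (l, s) := by
      have hq : ContinuousAt (fun x : ℝ × E => Q x.2) (l, s) :=
        ContinuousAt.comp (f := fun x : ℝ × E => x.2) (x := (l, s)) (g := Q)
          (cA_diffAt sit.cap (subset_closure hs)).continuousAt continuousAt_snd
      have hl : ContinuousAt (fun x : ℝ × E => ((x.1 : ℝ) : ℂ)) (l, s) :=
        Complex.continuous_ofReal.continuousAt.comp continuousAt_fst
      refine ContinuousAt.prodMk ?_ continuousAt_snd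
      refine continuousAt_const.mul ?_
      exact Complex.continuous_exp.continuousAt.comp
        ((hl.mul continuousAt_const).mul hq)
    exact ContinuousAt.comp (f := fun x : ℝ × E => cA_arc Q κ Lam x.1 x.2) (x := (l, s)) (g := H)
      (hHd l s hs).continuousAt h1
  have hfrT : frontier T' ⊆ T := fun s hs => hclT (frontier_subset_closure hs)
  have hfrΩ : ∀ l ∈ Icc (0 : ℝ) 1, ∀ s ∈ frontier T', H (cA_arc Q κ Lam l s) ∈ Ω := by
    intro l hl s hs
    obtain ⟨h1, h2⟩ := hfr κ hκ l hl s hs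
    rw [h2]
    exact sit.inside _ h1 (hfrT hs)
  -- the bound on the boundary
  obtain ⟨C, hC⟩ : ∃ C : ℝ, ∀ l ∈ Icc (0 : ℝ) 1, ∀ s ∈ frontier T',
      ‖F (H (cA_arc Q κ Lam l s))‖ ≤ C := by
    have hc1 : IsCompact (Icc (0 : ℝ) 1 ×ˢ frontier T') :=
      isCompact_Icc.prod (hcpt.of_isClosed_subset isClosed_frontier frontier_subset_closure)
    have hc2 : ContinuousOn (fun x : ℝ × E => F (H (cA_arc Q κ Lam x.1 x.2)))
        (Icc (0 : ℝ) 1 ×ˢ frontier T') := by
      rintro ⟨l, s⟩ ⟨hl, hs⟩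
      have hΩ := hfrΩ l hl s hs
      have hF : ContinuousAt F (H (cA_arc Q κ Lam l s)) :=
        ((sit.fb.dF _ hΩ).differentiableAt (sit.fb.isOpen.mem_nhds hΩ)).continuousAt
      exact (ContinuousAt.comp (f := fun x : ℝ × E => H (cA_arc Q κ Lam x.1 x.2)) (x := (l, s))
        (g := F) hF (hgc l s (hfrT hs))).continuousWithinAt
    obtain ⟨C, hC⟩ := hc1.exists_bound_of_continuousOn hc2
    exact ⟨C, fun l hl s hs => hC (l, s) ⟨hl, hs⟩⟩
  set J : Set ℝ := {l | ∀ s ∈ closure T', H (cA_arc Q κ Lam l s) ∈ Ω} with hJ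
  have hGC : IsCompact (G '' closedBall 0 C) :=
    (isCompact_closedBall _ _).image sit.fb.dG.continuous
  have hbd : ∀ l ∈ J ∩ Icc (0 : ℝ) 1, ∀ s ∈ closure T',
      H (cA_arc Q κ Lam l s) ∈ G '' closedBall 0 C := by
    rintro l ⟨hlJ, hl⟩ s hs
    have hd : DiffContOnCl ℂ (fun s => F (H (cA_arc Q κ Lam l s))) T' := by
      apply DifferentiableOn.diffContOnCl
      intro x hx
      have hxT : x ∈ T := hclT hx
      have hq : DifferentiableAt ℂ Q x := cA_diffAt sit.cap (subset_closure hxT)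
      have h1 : DifferentiableAt ℂ (fun s => cA_arc Q κ Lam l s) x := by
        unfold cA_arc
        exact ((((hq.const_mul _).cexp).const_mul _).prodMk differentiableAt_id)
      have h2 : DifferentiableAt ℂ (fun s => H (cA_arc Q κ Lam l s)) x :=
        DifferentiableAt.comp x (hHd l x hxT) h1
      have hΩ := hlJ x hx
      have hF : DifferentiableAt ℂ F (H (cA_arc Q κ Lam l x)) :=
        (sit.fb.dF _ hΩ).differentiableAt (sit.fb.isOpen.mem_nhds hΩ)
      exact (DifferentiableAt.comp x hF h2).differentiableWithinAt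
    have hle : ‖F (H (cA_arc Q κ Lam l s))‖ ≤ C :=
      Complex.norm_le_of_forall_mem_frontier_norm_le hbdd hd (fun z hz => hC l hl z hz) hs
    exact ⟨F (H (cA_arc Q κ Lam l s)), by simpa using hle, sit.fb.GF _ (hlJ s hs)⟩
  have hclosed : IsClosed (J ∩ Icc (0 : ℝ) 1) := by
    have heq : J ∩ Icc (0 : ℝ) 1 =
        Icc (0 : ℝ) 1 ∩ ⋂ s ∈ closure T', {l | H (cA_arc Q κ Lam l s) ∈ G '' closedBall 0 C} := by
      ext l
      constructor
      · intro hl
        refine ⟨hl.2, ?_⟩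
        rw [mem_iInter₂]
        exact fun s hs => hbd l hl s hs
      · rintro ⟨hl, hl'⟩
        rw [mem_iInter₂] at hl'
        refine ⟨fun s hs => ?_, hl⟩
        obtain ⟨y, _, hy⟩ := hl' s hs
        rw [← hy]
        exact sit.fb.mem y
    rw [heq]
    refine isClosed_Icc.inter (isClosed_biInter fun s hs => ?_)
    have hc : Continuous (fun l : ℝ => H (cA_arc Q κ Lam l s)) := by
      rw [continuous_iff_continuousAt]
      intro l
      exact ContinuousAt.comp (f := fun l : ℝ => (l, s)) (x := l)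
        (g := fun x : ℝ × E => H (cA_arc Q κ Lam x.1 x.2)) (hgc l s (hclT hs)) (by fun_prop)
    exact hGC.isClosed.preimage hc
  have h0J : (0 : ℝ) ∈ J := by
    intro s hs
    have hsT := hclT hs
    have hK0 : (cA_arc Q κ Lam 0 s).1 ∈ K b (Real.exp η) := by
      refine cA_memK b hκ ?_
      simpa using hη.le
    obtain ⟨h1, h2⟩ := hcore _ hK0 s hsT
    have h3 : cA_arc Q κ Lam 0 s = ((cA_arc Q κ Lam 0 s).1, s) := rfl
    rw [h3, h2]
    exact sit.inside _ h1 hsT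
  have hopenJ : ∀ l ∈ J ∩ Ico (0 : ℝ) 1, J ∈ 𝓝[>] l := by
    rintro l ⟨hlJ, _⟩
    have h1 : ∀ᶠ l' in 𝓝 l, ∀ s ∈ closure T', H (cA_arc Q κ Lam l' s) ∈ Ω := by
      refine hcpt.eventually_forall_of_forall_eventually (fun s hs => ?_)
      exact (hgc l s (hclT hs)).eventually (sit.fb.isOpen.mem_nhds (hlJ s hs))
    exact mem_nhdsWithin_of_mem_nhds h1
  have h1J : (1 : ℝ) ∈ J :=
    (hclosed.Icc_subset_of_forall_mem_nhdsWithin h0J hopenJ) ⟨zero_le_one, le_rfl⟩
  have hfin := h1J s₀ (subset_closure hs₀T')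
  have heq : cA_arc Q κ Lam 1 s₀ = (u₀, s₀) := by
    simp only [cA_arc, Complex.ofReal_one, one_mul, hκdef]
    rw [mul_assoc, ← Complex.exp_add, neg_add_cancel, Complex.exp_zero, mul_one]
  rwa [heq] at hfin

end Pool.Agent.FBL
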