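import Pool.Agent.FBL.Defs
import Pool.Agent.YTDA.Osgood

/-! # The extension is a local biholomorphism -/

open Set Metric Topology Filter

namespace Pool.Agent.FBL

variable {E : Type} [NormedAddCommGroup E] [NormedSpace ℂ E] [FiniteDimensional ℂ E]
  [Nontrivial E]

variable {b : Bool} {T S : Set E} {Q : E → ℂ} {Ω : Set (ℂ × E)} {F G : ℂ × E → ℂ × E}
  {V : Set (ℂ × E)} {h H : ℂ × E → ℂ × E}

omit [FiniteDimensional ℂ E] [Nontrivial E] in
theorem contB_prod {ι : Type} (I : Finset ι) {O : Set E} {f : ι → E → ℂ}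
    (hf : ∀ i, DifferentiableOn ℂ (f i) O) : DifferentiableOn ℂ (fun x => ∏ i ∈ I, f i x) O := by
  classical
  induction I using Finset.induction_on with
  | empty => simp
  | insert a I ha ih =>
    simp only [Finset.prod_insert ha]
    exact (hf a).fun_mul ih

theorem differentiableOn_det {X : Type} [NormedAddCommGroup X] [NormedSpace ℂ X]
    [FiniteDimensional ℂ X] {O : Set X} (hO : IsOpen O) {H : X → X}
    (hH : DifferentiableOn ℂ H O) : DifferentiableOn ℂ (fun x => (fderiv ℂ H x).det) O := by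
  classical
  let B := Module.finBasis ℂ X
  have h1 : (fun x => (fderiv ℂ H x).det) = fun x =>
      ∑ σ : Equiv.Perm (Fin (Module.finrank ℂ X)), ((Equiv.Perm.sign σ : ℤ) : ℂ) *
        ∏ i, LinearMap.toContinuousLinearMap (B.coord (σ i)) (fderiv ℂ H x (B i)) := by
    funext x
    have h2 : (fderiv ℂ H x).det = LinearMap.det ((fderiv ℂ H x : X →L[ℂ] X) : X →ₗ[ℂ] X) := rfl
    rw [h2, ← LinearMap.det_toMatrix B, Matrix.det_apply']
    refine Finset.sum_congr rfl fun σ _ => ?_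
    congr 1
    refine Finset.prod_congr rfl fun i _ => ?_
    simp [LinearMap.toMatrix_apply]
  rw [h1]
  refine DifferentiableOn.fun_sum fun σ _ => ?_
  refine DifferentiableOn.fun_mul (differentiableOn_const _) ?_
  refine contB_prod _ fun i => ?_
  exact (LinearMap.toContinuousLinearMap (B.coord (σ i))).differentiable.comp_differentiableOn
    (YTDA.differentiableOn_fderiv_apply hO hH (B i))

/-- a neighbourhood of a point of the smaller set in the larger one -/
theorem contB_K_nhds (b : Bool) {u : ℂ} {ρ ρ' : ℝ} (hu : u ∈ K b ρ) (hρ : ρ < ρ') :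
    K b ρ' ∈ 𝓝 u := by
  have h1 : ∀ᶠ v in 𝓝 u, v ∈ Leaf b := (isOpen_Leaf b).mem_nhds hu.1
  have h2 : ∀ᶠ v in 𝓝 u, ‖v‖ < ρ' :=
    continuous_norm.continuousAt.eventually_lt continuousAt_const (hu.2.1.trans_lt hρ)
  have h3 : ∀ᶠ v in 𝓝 u, ‖e2 b v‖ < ρ' :=
    (differentiableAt_e2 b hu.1).continuousAt.norm.eventually_lt continuousAt_const
      (hu.2.2.trans_lt hρ)
  filter_upwards [h1, h2, h3] with v a1 a2 a3
  exact ⟨a1, a2.le, a3.le⟩

omit [FiniteDimensional ℂ E] [Nontrivial E] in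
/-- where `H = h` in a neighbourhood the determinant does not vanish -/
theorem contB_det_of_eq (sit : Sit b T S Q Ω F G V h H) {x : ℂ × E}
    (hx : ∀ᶠ y in 𝓝 x, y ∈ V ∧ H y = h y) : (fderiv ℂ H x).det ≠ 0 := by
  have h1 : H =ᶠ[𝓝 x] h := hx.mono fun _ hy => hy.2
  rw [h1.fderiv_eq]
  exact sit.imm x hx.self_of_nhds.1

omit [FiniteDimensional ℂ E] [Nontrivial E] in
theorem contB_core (sit : Sit b T S Q Ω F G V h H) {η : ℝ} (hη : 0 < η)
    (hc : ∀ u ∈ K b (Real.exp η), ∀ s ∈ T, (u, s) ∈ V ∧ H (u, s) = h (u, s)) {u : ℂ}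
    (hu : u ∈ K b (Real.exp (η / 2))) {s : E} (hs : s ∈ T) : (fderiv ℂ H (u, s)).det ≠ 0 := by
  refine contB_det_of_eq sit ?_
  have h1 := contB_K_nhds b hu (Real.exp_lt_exp.2 (by linarith : η / 2 < η))
  have h2 : ∀ᶠ y : ℂ × E in 𝓝 (u, s), y.1 ∈ K b (Real.exp η) :=
    continuous_fst.continuousAt.eventually_mem h1
  have h3 : ∀ᶠ y : ℂ × E in 𝓝 (u, s), y.2 ∈ T :=
    continuous_snd.continuousAt.eventually_mem (sit.cap.isOpen.mem_nhds hs)
  filter_upwards [h2, h3] with y a1 a2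
  exact hc y.1 a1 y.2 a2

omit [FiniteDimensional ℂ E] [Nontrivial E] in
theorem contB_near (sit : Sit b T S Q Ω F G V h H) {R δ : ℝ}
    (hn : ∀ u ∈ K b (Real.exp (R + 1)), ∀ s ∈ T, infDist s S < δ →
      (u, s) ∈ V ∧ H (u, s) = h (u, s)) {u : ℂ} (hu : u ∈ K b (Real.exp R)) {s : E} (hs : s ∈ T)
    (hd : infDist s S < δ) : (fderiv ℂ H (u, s)).det ≠ 0 := by
  refine contB_det_of_eq sit ?_
  have h1 := contB_K_nhds b hu (Real.exp_lt_exp.2 (by linarith : R < R + 1))
  have h2 : ∀ᶠ y : ℂ × E in 𝓝 (u, s), y.1 ∈ K b (Real.exp (R + 1)) :=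
    continuous_fst.continuousAt.eventually_mem h1
  have h3 : ∀ᶠ y : ℂ × E in 𝓝 (u, s), y.2 ∈ T :=
    continuous_snd.continuousAt.eventually_mem (sit.cap.isOpen.mem_nhds hs)
  have h4 : ∀ᶠ y : ℂ × E in 𝓝 (u, s), infDist y.2 S < δ :=
    ((continuous_infDist_pt S).comp continuous_snd).continuousAt.eventually_lt
      continuousAt_const hd
  filter_upwards [h2, h3, h4] with y a1 a2 a3
  exact hn y.1 a1 y.2 a2 a3

/-- the discs -/
noncomputable def contB_A (Q : E → ℂ) (κ : ℂ) (Λ l : ℝ) (s : E) : ℂ × E :=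
  (κ * Complex.exp (((l * Λ : ℝ) : ℂ) * Q s), s)

omit [NormedSpace ℂ E] [FiniteDimensional ℂ E] [Nontrivial E] in
theorem contB_norm {κ : ℂ} (hκ : ‖κ‖ = 1) (Λ l : ℝ) (s : E) :
    ‖(contB_A Q κ Λ l s).1‖ = Real.exp (l * Λ * (Q s).re) := by
  simp only [contB_A, norm_mul, hκ, one_mul, Complex.norm_exp, Complex.re_ofReal_mul]

omit [NormedSpace ℂ E] [FiniteDimensional ℂ E] [Nontrivial E] in
theorem contB_leaf {κ : ℂ} (hκ : ‖κ‖ = 1) (Λ l : ℝ) (s : E) :
    (contB_A Q κ Λ l s).1 ∈ Leaf b := by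
  intro _ h0
  have := contB_norm (Q := Q) hκ Λ l s
  rw [h0, norm_zero] at this
  exact absurd this (Real.exp_pos _).ne

omit [NormedSpace ℂ E] [FiniteDimensional ℂ E] [Nontrivial E] in
theorem contB_mem_K {κ : ℂ} (hκ : ‖κ‖ = 1) {Λ l : ℝ} (s : E) {R : ℝ}
    (h1 : |l * Λ * (Q s).re| ≤ R) : (contB_A Q κ Λ l s).1 ∈ K b (Real.exp R) := by
  refine mem_K_exp b ?_ ?_
  · rw [contB_norm hκ]
    exact Real.exp_le_exp.2 (abs_le.1 h1).1
  · rw [contB_norm hκ]
    exact Real.exp_le_exp.2 (abs_le.1 h1).2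

theorem H_det (sit : Sit b T S Q Ω F G V h H) :
    ∀ u ∈ Leaf b, ∀ s ∈ T, (fderiv ℂ H (u, s)).det ≠ 0 := by
  intro u₀ hu₀ s₀ hs₀
  have : ProperSpace E := FiniteDimensional.proper ℂ E
  obtain ⟨η, hη, hcore⟩ := sit.core
  by_cases hK : u₀ ∈ K b (Real.exp (η / 2))
  · exact contB_core sit hη hcore hK hs₀
  have hu0 : u₀ ≠ 0 := by
    rintro rfl
    apply hK
    cases b
    · refine ⟨hu₀, by simpa using (Real.exp_pos _).le, ?_⟩
      simp only [e2, Bool.false_eq_true, if_false, norm_one]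
      exact Real.one_le_exp (by linarith)
    · exact absurd rfl (hu₀ rfl)
  have hQd : DifferentiableOn ℂ Q T := by
    obtain ⟨W, -, hTW, hQ⟩ := sit.cap.diff
    exact hQ.mono (subset_closure.trans hTW)
  have hp₀ := sit.cap.pos s₀ hs₀
  set Λ : ℝ := Real.log ‖u₀‖ / (Q s₀).re with hΛ
  set κ : ℂ := u₀ * Complex.exp (-((Λ : ℂ) * Q s₀)) with hκdef
  have hκ : ‖κ‖ = 1 := by
    rw [hκdef, norm_mul, Complex.norm_exp, Complex.neg_re, Complex.re_ofReal_mul, hΛ,
      div_mul_cancel₀ _ hp₀.ne', Real.exp_neg, Real.exp_log (norm_pos_iff.2 hu0),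
      mul_inv_cancel₀ (norm_pos_iff.2 hu0).ne']
  set A := contB_A Q κ Λ with hA
  have hA1 : A 1 s₀ = (u₀, s₀) := by
    simp only [hA, contB_A, hκdef, one_mul, Prod.mk.injEq, and_true]
    rw [mul_assoc, ← Complex.exp_add, neg_add_cancel, Complex.exp_zero, mul_one]
  set R : ℝ := |Λ| with hR
  have hR0 : 0 ≤ R := abs_nonneg _
  obtain ⟨δn, hδn, hnear⟩ := sit.near (Real.exp (R + 1))
  -- the smaller cap
  have hSc : IsClosed S := sit.cap.cptS.isClosed
  have hinf : 0 < infDist s₀ S :=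
    (hSc.notMem_iff_infDist_pos sit.cap.neS).1 fun hs => sit.cap.disj s₀ hs hs₀
  obtain ⟨δ, hδ0, hδ1, hδ2⟩ : ∃ δ : ℝ, 0 < δ ∧ δ < δn ∧ δ < infDist s₀ S :=
    ⟨min δn (infDist s₀ S) / 2, by positivity,
      by have := min_le_left δn (infDist s₀ S); linarith [lt_min hδn hinf],
      by have := min_le_right δn (infDist s₀ S); linarith [lt_min hδn hinf]⟩
  obtain ⟨δ', hδ'0, hδ'1, hδ'2⟩ : ∃ δ' : ℝ, 0 < δ' ∧ R * δ' ≤ η / 2 ∧ δ' < (Q s₀).re := by
    refine ⟨min (η / 2 / (R + 1)) ((Q s₀).re / 2), lt_min (by positivity) (by positivity), ?_,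
      (min_le_right _ _).trans_lt (by linarith)⟩
    calc R * min (η / 2 / (R + 1)) ((Q s₀).re / 2) ≤ R * (η / 2 / (R + 1)) :=
          mul_le_mul_of_nonneg_left (min_le_left _ _) hR0
      _ ≤ η / 2 := by
          rw [mul_div_assoc', div_le_iff₀ (by positivity)]
          nlinarith
  set T' : Set E := {s | s ∈ T ∧ δ < infDist s S ∧ δ' < (Q s).re} with hT'
  have hQc : ContinuousOn (fun s => (Q s).re) T :=
    Complex.continuous_re.comp_continuousOn hQd.continuousOn
  have hT'o : IsOpen T' := by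
    have h1 : IsOpen (T ∩ (fun s => (Q s).re) ⁻¹' Ioi δ') :=
      hQc.isOpen_inter_preimage sit.cap.isOpen isOpen_Ioi
    have h2 : IsOpen {s : E | δ < infDist s S} :=
      isOpen_lt continuous_const (continuous_infDist_pt S)
    have : T' = (T ∩ (fun s => (Q s).re) ⁻¹' Ioi δ') ∩ {s : E | δ < infDist s S} := by
      ext s
      simp only [hT', mem_ofPred_eq, mem_inter_iff, mem_preimage, mem_Ioi]
      tauto
    rw [this]
    exact h1.inter h2
  have hT'T : T' ⊆ T := fun s hs => hs.1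
  have hT'b : Bornology.IsBounded T' := sit.cap.bdd.subset hT'T
  -- closure
  obtain ⟨W, hW, hTW, hQW⟩ := sit.cap.diff
  have hcl : ∀ s ∈ closure T', s ∈ T ∧ δ ≤ infDist s S ∧ δ' ≤ (Q s).re := by
    intro s hs
    have hsT : s ∈ closure T := closure_mono hT'T hs
    have h1 : δ ≤ infDist s S := by
      have : closure T' ⊆ {s : E | δ ≤ infDist s S} :=
        closure_minimal (fun s hs => hs.2.1.le)
          (isClosed_le continuous_const (continuous_infDist_pt S))
      exact this hs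
    have h2 : δ' ≤ (Q s).re := by
      have hcs : ContinuousAt (fun s => (Q s).re) s :=
        Complex.continuous_re.continuousAt.comp
          (hQW.differentiableAt (hW.mem_nhds (hTW hsT))).continuousAt
      have hfr := mem_closure_iff_frequently.1 hs
      by_contra hlt
      rw [not_le] at hlt
      have h3 := hcs.eventually_lt continuousAt_const hlt
      obtain ⟨s', h4, h5⟩ := (hfr.and_eventually h3).exists
      linarith [h4.2.2]
    refine ⟨?_, h1, h2⟩
    rcases sit.cap.bdry s hsT (by linarith) with h3 | h3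
    · exact h3
    · exfalso
      have := infDist_zero_of_mem h3
      linarith
  have hclT : closure T' ⊆ T := fun s hs => (hcl s hs).1
  have hcptcl : IsCompact (closure T') := hT'b.isCompact_closure
  have hs₀T' : s₀ ∈ T' := ⟨hs₀, hδ2, hδ'2⟩
  -- the function
  set J : ℂ × E → ℂ := fun x => (fderiv ℂ H x).det with hJ
  have hOo : IsOpen (Leaf b ×ˢ T) := (isOpen_Leaf b).prod sit.cap.isOpen
  have hJd : DifferentiableOn ℂ J (Leaf b ×ˢ T) := differentiableOn_det hOo sit.dH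
  have hbound : ∀ l ∈ Icc (0 : ℝ) 1, ∀ s ∈ T, |l * Λ * (Q s).re| ≤ R * (Q s).re := by
    intro l hl s hs
    rw [abs_mul, abs_mul, abs_of_pos (sit.cap.pos s hs), abs_of_nonneg hl.1]
    refine mul_le_mul_of_nonneg_right ?_ (sit.cap.pos s hs).le
    exact mul_le_of_le_one_left hR0 hl.2
  have hbound1 : ∀ l ∈ Icc (0 : ℝ) 1, ∀ s ∈ T, |l * Λ * (Q s).re| ≤ R := by
    intro l hl s hs
    refine (hbound l hl s hs).trans ?_
    exact mul_le_of_le_one_right hR0 (sit.cap.lt_one s hs).le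
  have hbdry : ∀ l ∈ Icc (0 : ℝ) 1, ∀ s ∈ frontier T', J (A l s) ≠ 0 := by
    intro l hl s hs
    have hscl : s ∈ closure T' := frontier_subset_closure hs
    have hsT := hclT hscl
    have hns : s ∉ T' := by
      rw [hT'o.frontier_eq] at hs
      exact hs.2
    by_cases h1 : δ < infDist s S
    · have h2 : (Q s).re ≤ δ' := by
        by_contra h3
        rw [not_le] at h3
        exact hns ⟨hsT, h1, h3⟩
      have h4 : |l * Λ * (Q s).re| ≤ η / 2 :=
        (hbound l hl s hsT).trans ((mul_le_mul_of_nonneg_left h2 hR0).trans hδ'1)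
      exact contB_core sit hη hcore (contB_mem_K hκ s h4) hsT
    · rw [not_lt] at h1
      exact contB_near sit hnear (contB_mem_K hκ s (hbound1 l hl s hsT)) hsT (by linarith)
  -- joint continuity
  have hAc : ContinuousOn (fun z : ℝ × E => A z.1 z.2) (univ ×ˢ T) := by
    refine ContinuousOn.prodMk ?_ continuousOn_snd
    refine continuousOn_const.mul ?_
    refine Complex.continuous_exp.comp_continuousOn ?_
    refine ContinuousOn.mul ?_ ?_
    · exact (Complex.continuous_ofReal.comp (continuous_fst.mul continuous_const)).continuousOn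
    · exact hQd.continuousOn.comp continuousOn_snd (fun z hz => hz.2)
  have hAm : MapsTo (fun z : ℝ × E => A z.1 z.2) (univ ×ˢ T) (Leaf b ×ˢ T) :=
    fun z hz => ⟨contB_leaf hκ Λ z.1 z.2, hz.2⟩
  have hΦc : ContinuousOn (fun z : ℝ × E => J (A z.1 z.2)) (univ ×ˢ T) :=
    hJd.continuousOn.comp hAc hAm
  -- lower bound on the boundary
  obtain ⟨c, hc0, hc⟩ : ∃ c > 0, ∀ l ∈ Icc (0 : ℝ) 1, ∀ s ∈ frontier T', c ≤ ‖J (A l s)‖ := by
    have hcpt : IsCompact (Icc (0 : ℝ) 1 ×ˢ frontier T') :=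
      isCompact_Icc.prod (hcptcl.of_isClosed_subset isClosed_frontier frontier_subset_closure)
    rcases (Icc (0 : ℝ) 1 ×ˢ frontier T').eq_empty_or_nonempty with he | hne
    · refine ⟨1, one_pos, fun l hl s hs => ?_⟩
      have : (l, s) ∈ (Icc (0 : ℝ) 1 ×ˢ frontier T') := ⟨hl, hs⟩
      rw [he] at this
      exact absurd this (notMem_empty _)
    · have hcont : ContinuousOn (fun z : ℝ × E => ‖J (A z.1 z.2)‖)
          (Icc (0 : ℝ) 1 ×ˢ frontier T') :=
        (hΦc.mono fun z hz => ⟨mem_univ _, hclT (frontier_subset_closure hz.2)⟩).norm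
      obtain ⟨z, hz, hmin⟩ := hcpt.exists_isMinOn hne hcont
      exact ⟨‖J (A z.1 z.2)‖, norm_pos_iff.2 (hbdry z.1 hz.1 z.2 hz.2),
        fun l hl s hs => isMinOn_iff.1 hmin (l, s) ⟨hl, hs⟩⟩
  -- maximum principle
  have hmax : ∀ l ∈ Icc (0 : ℝ) 1, (∀ s ∈ closure T', J (A l s) ≠ 0) →
      ∀ s ∈ closure T', c ≤ ‖J (A l s)‖ := by
    intro l hl hne s hs
    have hAd : DifferentiableOn ℂ (A l) T := by
      refine DifferentiableOn.prodMk ?_ differentiableOn_id
      exact ((hQd.const_mul _).cexp).const_mul _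
    have hJA : DifferentiableOn ℂ (fun s => J (A l s)) T :=
      hJd.comp hAd (fun s hs => ⟨contB_leaf hκ Λ l s, hs⟩)
    have hinv : DifferentiableOn ℂ (fun s => (J (A l s))⁻¹) (closure T') :=
      (hJA.mono hclT).inv hne
    have hdc : DiffContOnCl ℂ (fun s => (J (A l s))⁻¹) T' :=
      ⟨hinv.mono subset_closure, hinv.continuousOn⟩
    have h1 := Complex.norm_le_of_forall_mem_frontier_norm_le hT'b hdc (C := c⁻¹) (fun z hz => by
      rw [norm_inv]
      exact inv_anti₀ hc0 (hc l hl z hz)) hs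
    rw [norm_inv] at h1
    exact (inv_le_inv₀ (norm_pos_iff.2 (hne s hs)) hc0).1 h1
  -- continuous induction
  set J2 : Set ℝ := {l | ∀ s ∈ closure T', c ≤ ‖J (A l s)‖} with hJ2
  have hJ2c : IsClosed J2 := by
    have : J2 = ⋂ s ∈ closure T', {l : ℝ | c ≤ ‖J (A l s)‖} := by
      ext l
      simp [hJ2]
    rw [this]
    refine isClosed_biInter fun s hs => isClosed_le continuous_const ?_
    refine Continuous.norm ?_
    have h1 : ContinuousOn (fun l : ℝ => J (A l s)) univ :=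
      hΦc.comp (f := fun l : ℝ => ((l, s) : ℝ × E))
        (continuous_id.prodMk continuous_const).continuousOn
        (fun l _ => ⟨mem_univ _, hclT hs⟩)
    exact continuousOn_univ.1 h1
  have h0J2 : (0 : ℝ) ∈ J2 := by
    refine hmax 0 ⟨le_refl _, zero_le_one⟩ ?_
    intro s hs
    refine contB_core sit hη hcore (contB_mem_K hκ s ?_) (hclT hs)
    simp only [zero_mul, abs_zero]
    linarith
  have hsub : Icc (0 : ℝ) 1 ⊆ J2 := by
    refine IsClosed.Icc_subset_of_forall_mem_nhdsWithin (hJ2c.inter isClosed_Icc) h0J2 ?_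
    intro l hl
    have hev : ∀ᶠ l' in 𝓝 l, ∀ s ∈ closure T', J (A l' s) ≠ 0 := by
      refine hcptcl.eventually_forall_of_forall_eventually ?_
      intro s hs
      have hat : ContinuousAt (fun z : ℝ × E => J (A z.1 z.2)) (l, s) :=
        hΦc.continuousAt ((isOpen_univ.prod sit.cap.isOpen).mem_nhds ⟨mem_univ _, hclT hs⟩)
      refine hat.eventually_ne ?_
      exact norm_pos_iff.1 (hc0.trans_le (hl.1 s hs))
    have h1 : ∀ᶠ l' in 𝓝[>] l, l' ∈ Icc (0 : ℝ) 1 := by
      have : Ioo l 1 ∈ 𝓝[>] l := Ioo_mem_nhdsGT hl.2.2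
      filter_upwards [this] with l' hl'
      exact ⟨hl.2.1.trans hl'.1.le, hl'.2.le⟩
    filter_upwards [hev.filter_mono nhdsWithin_le_nhds, h1] with l' a1 a2
    exact hmax l' a2 a1
  have h1I : (1 : ℝ) ∈ Icc (0 : ℝ) 1 := right_mem_Icc.2 zero_le_one
  have h1J : (1 : ℝ) ∈ J2 := hsub h1I
  have hscl : s₀ ∈ closure T' := subset_closure hs₀T'
  have hfin : c ≤ ‖J (A 1 s₀)‖ := h1J s₀ hscl
  have hfin2 : J (A 1 s₀) ≠ 0 := norm_pos_iff.1 (hc0.trans_le hfin)
  rw [hA1] at hfin2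
  exact hfin2

end Pool.Agent.FBL
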