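import Mathlib

/-!
# Parabolic product families in the boundary of a Fatou–Bieberbach domain: definitions
-/

open Set Metric Topology

namespace Pool.Agent.FBL

/-- the leaf: `ℂ` (`b = false`) or `ℂ ∖ {0}` (`b = true`) -/
def Leaf (b : Bool) : Set ℂ := {u | b = true → u ≠ 0}

/-- second end function of the leaf: `1` on `ℂ`, `1 / u` on `ℂ ∖ {0}` -/
noncomputable def e2 (b : Bool) (u : ℂ) : ℂ := if b = true then u⁻¹ else 1

/-- exhaustion of the leaf by the sets `‖u‖ ≤ ρ`, `‖e2 u‖ ≤ ρ` (compact, see `isCompact_K`) -/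
def K (b : Bool) (ρ : ℝ) : Set ℂ := {u | u ∈ Leaf b ∧ ‖u‖ ≤ ρ ∧ ‖e2 b u‖ ≤ ρ}

theorem isOpen_Leaf (b : Bool) : IsOpen (Leaf b) := by
  cases b
  · have : Leaf false = univ := by ext u; simp [Leaf]
    rw [this]; exact isOpen_univ
  · have : Leaf true = {0}ᶜ := by ext u; simp [Leaf]
    rw [this]; exact isOpen_compl_singleton

theorem one_mem_Leaf (b : Bool) : (1 : ℂ) ∈ Leaf b := fun _ => one_ne_zero

theorem K_subset_Leaf (b : Bool) (ρ : ℝ) : K b ρ ⊆ Leaf b := fun _ h => h.1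

theorem K_mono (b : Bool) {ρ ρ' : ℝ} (h : ρ ≤ ρ') : K b ρ ⊆ K b ρ' :=
  fun _ hu => ⟨hu.1, hu.2.1.trans h, hu.2.2.trans h⟩

theorem isCompact_K (b : Bool) (ρ : ℝ) : IsCompact (K b ρ) := by
  cases b
  · have : K false ρ = closedBall 0 ρ ∩ {_u : ℂ | (1 : ℝ) ≤ ρ} := by
      ext u; simp [K, Leaf, e2]
    rw [this]
    by_cases h : (1 : ℝ) ≤ ρ
    · simpa [h] using isCompact_closedBall (0 : ℂ) ρ
    · simp [h]
  · rcases le_or_gt ρ 0 with h | h
    · have : K true ρ = ∅ := by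
        ext u
        simp only [K, Leaf, e2, mem_ofPred_eq, mem_empty_iff_false, iff_false, not_and]
        intro h1 h2
        exact absurd (norm_pos_iff.2 (h1 trivial)) (not_lt.2 (h2.trans h))
      rw [this]; exact isCompact_empty
    · have : K true ρ = closedBall 0 ρ ∩ {u : ℂ | ρ⁻¹ ≤ ‖u‖} := by
        ext u
        simp only [K, Leaf, e2, mem_ofPred_eq, mem_inter_iff, mem_closedBall_zero_iff, if_true]
        constructor
        · rintro ⟨h1, h2, h3⟩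
          refine ⟨h2, ?_⟩
          rw [norm_inv] at h3
          exact inv_le_of_inv_le₀ (norm_pos_iff.2 (h1 trivial)) h3
        · rintro ⟨h2, h3⟩
          have h4 : 0 < ‖u‖ := (inv_pos.2 h).trans_le h3
          refine ⟨fun _ => norm_pos_iff.1 h4, h2, ?_⟩
          rw [norm_inv]
          exact inv_le_of_inv_le₀ h h3
      rw [this]
      exact (isCompact_closedBall (0 : ℂ) ρ).inter_right (isClosed_le continuous_const continuous_norm)

/-- a point of modulus between `exp (-R)` and `exp R` is in `K b (exp R)` -/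
theorem mem_K_exp (b : Bool) {u : ℂ} {R : ℝ} (h1 : Real.exp (-R) ≤ ‖u‖) (h2 : ‖u‖ ≤ Real.exp R) :
    u ∈ K b (Real.exp R) := by
  have h0 : 0 < ‖u‖ := (Real.exp_pos _).trans_le h1
  refine ⟨fun _ => norm_pos_iff.1 h0, h2, ?_⟩
  cases b
  · simp only [e2, Bool.false_eq_true, if_false, norm_one]
    by_contra hlt
    rw [not_le] at hlt
    have h3 : R < 0 := by
      by_contra h4
      rw [not_lt] at h4
      exact absurd (Real.one_le_exp h4) (not_le.2 hlt)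
    have h5 : Real.exp R < Real.exp (-R) := Real.exp_lt_exp.2 (by linarith)
    linarith
  · simp only [e2, if_true, norm_inv]
    rw [← neg_neg R, Real.exp_neg (-R)]
    exact inv_anti₀ (Real.exp_pos _) h1

/-- every point of the leaf is in some `K b ρ` -/
theorem exists_mem_K (b : Bool) {u : ℂ} (hu : u ∈ Leaf b) : ∃ ρ : ℝ, 1 ≤ ρ ∧ u ∈ K b ρ :=
  ⟨max 1 (max ‖u‖ ‖e2 b u‖), le_max_left _ _, hu, (le_max_left _ _).trans (le_max_right _ _),
    (le_max_right _ _).trans (le_max_right _ _)⟩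

theorem norm_or (b : Bool) (u : ℂ) : ‖u‖ ≤ 1 ∨ ‖e2 b u‖ ≤ 1 := by
  rcases le_or_gt ‖u‖ 1 with h | h
  · exact Or.inl h
  · right
    cases b
    · simp [e2]
    · simp only [e2, if_true, norm_inv]
      exact inv_le_one_of_one_le₀ h.le

theorem differentiableAt_e2 (b : Bool) {u : ℂ} (hu : u ∈ Leaf b) : DifferentiableAt ℂ (e2 b) u := by
  cases b
  · have : e2 false = fun _ => 1 := by funext u; simp [e2]
    rw [this]; exact differentiableAt_const _
  · have : e2 true = fun u => u⁻¹ := by funext u; simp [e2]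
    rw [this]; exact differentiableAt_inv (hu rfl)

section

variable {E : Type} [NormedAddCommGroup E] [NormedSpace ℂ E]

/-- a cap `T`: its boundary lies in `S` and in `Re Q ≤ 0`; `Re Q ≤ 1` with `Re Q` close to `1`
somewhere -/
structure Cap (T S : Set E) (Q : E → ℂ) : Prop where
  isOpen : IsOpen T
  bdd : Bornology.IsBounded T
  diff : ∃ W : Set E, IsOpen W ∧ closure T ⊆ W ∧ DifferentiableOn ℂ Q W
  cptS : IsCompact S
  neS : S.Nonempty
  disj : ∀ s ∈ S, s ∉ T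
  le_one : ∀ s ∈ closure T, (Q s).re ≤ 1
  lt_one : ∀ s ∈ T, (Q s).re < 1
  pos : ∀ s ∈ T, 0 < (Q s).re
  bdry : ∀ s ∈ closure T, 0 < (Q s).re → s ∈ T ∨ s ∈ S
  peak : ∀ κ < 1, ∃ s ∈ T, κ < (Q s).re

/-- `Ω` is biholomorphic to the whole space `X` by `G : X → Ω`, `F : Ω → X` -/
structure FB {X : Type} [NormedAddCommGroup X] [NormedSpace ℂ X] (Ω : Set X) (F G : X → X) :
    Prop where
  isOpen : IsOpen Ω
  dF : DifferentiableOn ℂ F Ω
  dG : Differentiable ℂ G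
  mem : ∀ y, G y ∈ Ω
  GF : ∀ x ∈ Ω, G (F x) = x
  FG : ∀ y, F (G y) = y

/-- the standing situation of steps 2 – 4: `H` is the extension of `h` to `Leaf b × T` -/
structure Sit (b : Bool) (T S : Set E) (Q : E → ℂ) (Ω : Set (ℂ × E)) (F G : ℂ × E → ℂ × E)
    (V : Set (ℂ × E)) (h H : ℂ × E → ℂ × E) : Prop where
  cap : Cap T S Q
  fb : FB Ω F G
  isOpenV : IsOpen V
  dh : DifferentiableOn ℂ h V
  inj : InjOn h V
  imm : ∀ x ∈ V, (fderiv ℂ h x).det ≠ 0
  LS : Leaf b ×ˢ S ⊆ V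
  inside : ∀ x ∈ V, x.2 ∈ T → h x ∈ Ω
  outside : ∀ u ∈ Leaf b, ∀ s ∈ S, h (u, s) ∉ Ω
  dH : DifferentiableOn ℂ H (Leaf b ×ˢ T)
  near : ∀ ρ : ℝ, ∃ δ > 0, ∀ u ∈ K b ρ, ∀ s ∈ T, infDist s S < δ →
    (u, s) ∈ V ∧ H (u, s) = h (u, s)
  core : ∃ η > 0, ∀ u ∈ K b (Real.exp η), ∀ s ∈ T, (u, s) ∈ V ∧ H (u, s) = h (u, s)

end

/-- near `x`, `𝒳 ⊆ ℂ × Y` is the graph of `γ` over the disc of radius `r` -/
def Sec {Y : Type} [TopologicalSpace Y] (𝒳 : Set (ℂ × Y)) (x : ℂ × Y) (γ : ℂ → Y) (r : ℝ) :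
    Prop :=
  0 < r ∧ γ x.1 = x.2 ∧ ContinuousOn γ (ball x.1 r) ∧ (∀ t ∈ ball x.1 r, (t, γ t) ∈ 𝒳) ∧
    ∃ U ∈ 𝓝 x, ∀ y ∈ U ∩ 𝒳, y.1 ∈ ball x.1 r ∧ y.2 = γ y.1

end Pool.Agent.FBL
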