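import Pool.Agent.FBL.Inj

/-! # The contradiction on a complex line -/

open Set Metric Topology Filter

namespace Pool.Agent.FBL

variable {E : Type} [NormedAddCommGroup E] [NormedSpace ℂ E] [FiniteDimensional ℂ E]
  [Nontrivial E]

variable {b : Bool} {T S : Set E} {Q : E → ℂ} {Ω : Set (ℂ × E)} {F G : ℂ × E → ℂ × E}
  {V : Set (ℂ × E)} {h H : ℂ × E → ℂ × E}

/-- the preimages of the points of a complex line, away from one point of the line -/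
def FinX (b : Bool) (T : Set E) (Q : E → ℂ) (G H : ℂ × E → ℂ × E) (a d : ℂ × E) (ζ₀ : ℂ)
    (r : ℝ) : Set (ℂ × (ℂ × E)) :=
  {x | x.1 ≠ 0 ∧ ‖x.1‖ < r⁻¹ ∧ x.2 ∈ Leaf b ×ˢ T ∧ 1 / 2 < (Q x.2.2).re ∧
    H x.2 = G (a + (ζ₀ + x.1⁻¹) • d)}

omit [FiniteDimensional ℂ E] [Nontrivial E] in
theorem fin_diffQ (cap : Cap T S Q) {s : E} (hs : s ∈ closure T) : DifferentiableAt ℂ Q s := by
  obtain ⟨W, hW, hTW, hd⟩ := cap.diff
  exact (hd s (hTW hs)).differentiableAt (hW.mem_nhds (hTW hs))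

theorem fin_hloc (sit : Sit b T S Q Ω F G V h H) {a d : ℂ × E} {ζ₀ : ℂ} {r ε : ℝ} (hr : 0 < r)
    {x : ℂ × (ℂ × E)} (hx : x ∈ FinX b T Q G H a d ζ₀ r) :
    ∃ γ r', Sec (FinX b T Q G H a d ζ₀ r) x γ r' ∧
      (∃ g : ℂ → ℂ, DifferentiableOn ℂ g (ball x.1 r') ∧
        ∀ t ∈ ball x.1 r', (Q (γ t).2).re - 1 / 2 + ε * Real.log (‖t‖ * r) = (g t).re) ∧
      DifferentiableOn ℂ (fun t => (γ t).1) (ball x.1 r') ∧
      DifferentiableOn ℂ (fun t => e2 b (γ t).1) (ball x.1 r') := by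
  obtain ⟨w₀, y⟩ := x
  obtain ⟨hw0, hwr, hyO, hp, hH⟩ := hx
  simp only at hw0 hwr hyO hp hH ⊢
  have hO : IsOpen (Leaf b ×ˢ T) := (isOpen_Leaf b).prod sit.cap.isOpen
  have hdet : (fderiv ℂ H y).det ≠ 0 := H_det sit y.1 hyO.1 y.2 hyO.2
  have hn0 : 0 < ‖w₀‖ := norm_pos_iff.2 hw0
  have hr₀ : 0 < min ‖w₀‖ (r⁻¹ - ‖w₀‖) := lt_min hn0 (sub_pos.2 hwr)
  have hball : ∀ t ∈ ball w₀ (min ‖w₀‖ (r⁻¹ - ‖w₀‖)), ‖t - w₀‖ < ‖w₀‖ ∧ t ≠ 0 ∧ ‖t‖ < r⁻¹ := by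
    intro t ht
    rw [mem_ball, dist_eq_norm, lt_min_iff] at ht
    refine ⟨ht.1, ?_, ?_⟩
    · rintro rfl
      rw [zero_sub, norm_neg] at ht
      exact lt_irrefl _ ht.1
    · have : ‖t‖ ≤ ‖t - w₀‖ + ‖w₀‖ := by
        have := norm_add_le (t - w₀) w₀
        rwa [sub_add_cancel] at this
      linarith [ht.2]
  have hP : DifferentiableOn ℂ (fun w : ℂ => G (a + (ζ₀ + w⁻¹) • d))
      (ball w₀ (min ‖w₀‖ (r⁻¹ - ‖w₀‖))) := by
    intro t ht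
    have h1 : DifferentiableAt ℂ (fun w : ℂ => a + (ζ₀ + w⁻¹) • d) t :=
      ((differentiableAt_const _).add
        (((differentiableAt_const _).add (differentiableAt_inv (hball t ht).2.1)).smul_const d))
    exact ((sit.fb.dG _).comp t h1).differentiableWithinAt
  obtain ⟨γ, r₁, hr₁, hr₁0, hγ0, hγd, hγ, U, hU, hUq⟩ :=
    exists_section hO sit.dH hyO hdet hr₀ hP hH
  have hQγ : ∀ t ∈ ball w₀ r₁, DifferentiableAt ℂ (fun t => Q (γ t).2) t := by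
    intro t ht
    have h1 : DifferentiableAt ℂ γ t := hγd.differentiableAt (isOpen_ball.mem_nhds ht)
    have h2 : DifferentiableAt ℂ (fun t => (γ t).2) t := h1.snd
    exact (fin_diffQ sit.cap (subset_closure (hγ t ht).1.2)).comp t h2
  have hev : ∀ᶠ t in 𝓝 w₀, 1 / 2 < (Q (γ t).2).re := by
    have h1 : ContinuousAt (fun t => (Q (γ t).2).re) w₀ :=
      Complex.continuous_re.continuousAt.comp (hQγ w₀ (mem_ball_self hr₁)).continuousAt
    refine h1.eventually_const_lt ?_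
    beta_reduce
    rw [hγ0]
    exact hp
  obtain ⟨r₂, hr₂, hr₂'⟩ := Metric.eventually_nhds_iff_ball.1
    (hev.and (isOpen_ball.mem_nhds (mem_ball_self hr₁ : w₀ ∈ ball w₀ r₁)))
  have hsub : ball w₀ r₂ ⊆ ball w₀ r₁ := fun t ht => (hr₂' t ht).2
  have hsub₀ : ball w₀ r₂ ⊆ ball w₀ (min ‖w₀‖ (r⁻¹ - ‖w₀‖)) :=
    hsub.trans (ball_subset_ball hr₁0)
  refine ⟨γ, r₂, ⟨hr₂, hγ0, hγd.continuousOn.mono hsub, fun t ht => ?_,
    U ∩ Prod.fst ⁻¹' ball w₀ r₂, ?_, ?_⟩, ⟨fun t => Q (γ t).2 - 1 / 2 +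
      ε * (Complex.log (t / w₀) + (Real.log (‖w₀‖ * r) : ℝ)), ?_, ?_⟩, ?_, ?_⟩
  · exact ⟨(hball t (hsub₀ ht)).2.1, (hball t (hsub₀ ht)).2.2, (hγ t (hsub ht)).1,
      (hr₂' t ht).1, (hγ t (hsub ht)).2⟩
  · refine Filter.inter_mem hU ?_
    exact continuous_fst.continuousAt.preimage_mem_nhds
      (isOpen_ball.mem_nhds (mem_ball_self hr₂ : w₀ ∈ ball w₀ r₂))
  · rintro z ⟨⟨hzU, hzb⟩, hzX⟩
    exact ⟨hzb, (hUq z hzU hzX.2.2.2.2).2⟩
  · intro t ht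
    have hslit : t / w₀ ∈ Complex.slitPlane := by
      have h1 : t / w₀ = 1 + (t - w₀) / w₀ := by
        rw [sub_div, div_self hw0]
        ring
      rw [h1]
      apply Complex.mem_slitPlane_of_norm_lt_one
      rw [norm_div, div_lt_one hn0]
      exact (hball t (hsub₀ ht)).1
    have h2 : DifferentiableAt ℂ (fun t => Complex.log (t / w₀)) t :=
      (differentiableAt_id.div_const w₀).clog hslit
    exact (((hQγ t (hsub ht)).sub (differentiableAt_const _)).add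
      ((h2.add (differentiableAt_const _)).const_mul _)).differentiableWithinAt
  · intro t ht
    have ht0 : 0 < ‖t‖ := norm_pos_iff.2 (hball t (hsub₀ ht)).2.1
    have h1 : Real.log (‖t‖ * r) = Real.log (‖t‖ / ‖w₀‖) + Real.log (‖w₀‖ * r) := by
      rw [← Real.log_mul (by positivity) (by positivity)]
      congr 1
      field_simp
    simp only [Complex.add_re, Complex.sub_re, Complex.re_ofReal_mul, Complex.log_re, norm_div,
      Complex.ofReal_re]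
    rw [h1]
    norm_num
  · exact fun t ht => (hγd.differentiableAt (isOpen_ball.mem_nhds (hsub ht))).fst.differentiableWithinAt
  · intro t ht
    have h1 : DifferentiableAt ℂ (fun t => (γ t).1) t :=
      (hγd.differentiableAt (isOpen_ball.mem_nhds (hsub ht))).fst
    exact ((differentiableAt_e2 b (hγ t (hsub ht)).1.1).comp t h1).differentiableWithinAt

theorem fin_cpt (sit : Sit b T S Q Ω F G V h H) {a d : ℂ × E} {ζ₀ : ℂ} {r ε c : ℝ} (hr : 0 < r)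
    (hε : 0 < ε) (hc : 0 < c)
    (hstar : ∀ y ∈ Leaf b ×ˢ T, 1 / 2 < (Q y.2).re → ∀ z : ℂ, ‖z - ζ₀‖ ≤ r →
      H y = G (a + z • d) → (Q y.2).re ≤ 1 / 2 + c) {c' : ℝ} (hc' : c < c') (R : ℝ) :
    IsCompact {x ∈ FinX b T Q G H a d ζ₀ r |
      c' ≤ (Q x.2.2).re - 1 / 2 + ε * Real.log (‖x.1‖ * r) ∧ ‖x.2.1‖ ≤ R ∧
        ‖e2 b x.2.1‖ ≤ R} := by
  have : ProperSpace E := FiniteDimensional.proper ℂ E
  have hlog : ∀ w : ℂ, w ≠ 0 → ‖w‖ < r⁻¹ → Real.log (‖w‖ * r) ≤ 0 := by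
    intro w hw0 hw
    apply Real.log_nonpos (by positivity)
    rw [← inv_mul_cancel₀ hr.ne']
    exact mul_le_mul_of_nonneg_right hw.le hr.le
  have hB : IsCompact (closedBall (0 : ℂ) r⁻¹ ×ˢ (K b R ×ˢ closure T)) :=
    (isCompact_closedBall _ _).prod ((isCompact_K b R).prod sit.cap.bdd.isCompact_closure)
  refine hB.of_isClosed_subset (IsSeqClosed.isClosed ?_) ?_
  · intro x z hx hlim
    have hlim1 : Tendsto (fun n => (x n).1) atTop (𝓝 z.1) :=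
      (continuous_fst.tendsto z).comp hlim
    have hlim2 : Tendsto (fun n => (x n).2) atTop (𝓝 z.2) :=
      (continuous_snd.tendsto z).comp hlim
    have hκ : 0 < 1 / 2 + c' := by linarith
    obtain ⟨hK, hcl, hpz, hpt, hcase⟩ := lim_cases sit (H_mem sit) (y := fun n => (x n).2)
      (R := R) (κ := 1 / 2 + c') (fun n => by
        obtain ⟨⟨h1, h2, h3, h4, h5⟩, h6, h7, h8⟩ := hx n
        refine ⟨⟨h3.1, h7, h8⟩, h3.2, ?_⟩
        have := mul_nonpos_of_nonneg_of_nonpos hε.le (hlog _ h1 h2)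
        linarith) hκ hlim2
    -- the first coordinates are bounded below
    have hlow : ∀ n, Real.exp ((c' - 1 / 2) / ε) * r⁻¹ ≤ ‖(x n).1‖ := by
      intro n
      obtain ⟨⟨h1, h2, h3, h4, h5⟩, h6, h7, h8⟩ := hx n
      have h9 := sit.cap.lt_one _ h3.2
      have h10 : (c' - 1 / 2) / ε ≤ Real.log (‖(x n).1‖ * r) := by
        rw [div_le_iff₀ hε]
        linarith
      have h11 : 0 < ‖(x n).1‖ * r := mul_pos (norm_pos_iff.2 h1) hr
      rw [Real.le_log_iff_exp_le h11] at h10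
      rwa [← div_eq_mul_inv, div_le_iff₀ hr]
    have hz1 : Real.exp ((c' - 1 / 2) / ε) * r⁻¹ ≤ ‖z.1‖ :=
      ge_of_tendsto' hlim1.norm hlow
    have hz0 : z.1 ≠ 0 := by
      rw [← norm_pos_iff]
      exact (by positivity : 0 < Real.exp ((c' - 1 / 2) / ε) * r⁻¹).trans_le hz1
    have hz2 : ‖z.1‖ ≤ r⁻¹ := le_of_tendsto' hlim1.norm (fun n => (hx n).1.2.1.le)
    -- the limit of the equation
    have hGlim : Tendsto (fun n => H ((x n).2)) atTop (𝓝 (G (a + (ζ₀ + z.1⁻¹) • d))) := by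
      have h1 : Tendsto (fun n => G (a + (ζ₀ + ((x n).1)⁻¹) • d)) atTop
          (𝓝 (G (a + (ζ₀ + z.1⁻¹) • d))) := by
        have h2 : Tendsto (fun n => a + (ζ₀ + ((x n).1)⁻¹) • d) atTop
            (𝓝 (a + (ζ₀ + z.1⁻¹) • d)) :=
          tendsto_const_nhds.add ((tendsto_const_nhds.add (hlim1.inv₀ hz0)).smul_const d)
        exact (sit.fb.dG.continuous.tendsto _).comp h2
      refine h1.congr (fun n => ?_)
      exact (hx n).1.2.2.2.2.symm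
    rcases hcase with ⟨hT, hHlim, hHz⟩ | ⟨hS, -, -, hhlim, hhz⟩
    · have heq : H z.2 = G (a + (ζ₀ + z.1⁻¹) • d) := tendsto_nhds_unique hHlim hGlim
      have hzO : z.2 ∈ Leaf b ×ˢ T := ⟨hK.1, hT⟩
      have hp2 : 1 / 2 < (Q z.2.2).re := by linarith
      have hz3 : ‖z.1‖ < r⁻¹ := by
        rcases hz2.lt_or_eq with h1 | h1
        · exact h1
        · exfalso
          have h2 : ‖(ζ₀ + z.1⁻¹) - ζ₀‖ ≤ r := by
            rw [add_sub_cancel_left, norm_inv, h1, inv_inv]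
          have h3 := hstar z.2 hzO hp2 _ h2 heq
          linarith
      refine ⟨⟨hz0, hz3, hzO, hp2, heq⟩, ?_, hK.2.1, hK.2.2⟩
      have h4 : Tendsto (fun n => (Q (x n).2.2).re - 1 / 2 + ε * Real.log (‖(x n).1‖ * r)) atTop
          (𝓝 ((Q z.2.2).re - 1 / 2 + ε * Real.log (‖z.1‖ * r))) := by
        refine (hpt.sub_const _).add (Tendsto.const_mul _ ?_)
        have h5 : 0 < ‖z.1‖ * r := mul_pos (norm_pos_iff.2 hz0) hr
        exact (hlim1.norm.mul_const r).log h5.ne'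
      exact ge_of_tendsto' h4 (fun n => (hx n).2.1)
    · exfalso
      apply hhz
      rw [tendsto_nhds_unique hhlim hGlim]
      exact sit.fb.mem _
  · rintro x ⟨⟨h1, h2, h3, h4, h5⟩, h6, h7, h8⟩
    exact ⟨by simpa using h2.le, ⟨h3.1, h7, h8⟩, subset_closure h3.2⟩

theorem line_le (sit : Sit b T S Q Ω F G V h H) {a d : ℂ × E} {ζ₀ ζ₁ : ℂ} {y₀ y₁ : ℂ × E}
    (hy₀ : y₀ ∈ Leaf b ×ˢ T) (hy₁ : y₁ ∈ Leaf b ×ˢ T) (hp₀ : 1 / 2 < (Q y₀.2).re)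
    (hp₁ : 1 / 2 < (Q y₁.2).re) (h₀ : H y₀ = G (a + ζ₀ • d)) (h₁ : H y₁ = G (a + ζ₁ • d)) :
    (Q y₁.2).re ≤ (Q y₀.2).re := by
  by_cases hζ : ζ₀ = ζ₁
  · subst hζ
    rw [H_inj sit hy₀ hy₁ hp₀ hp₁ (h₀.trans h₁.symm)]
  refine le_of_forall_pos_le_add fun η hη => ?_
  have hO : IsOpen (Leaf b ×ˢ T) := (isOpen_Leaf b).prod sit.cap.isOpen
  have hP : DifferentiableOn ℂ (fun z : ℂ => G (a + z • d)) (ball ζ₀ 1) := by
    intro t _
    have h1 : DifferentiableAt ℂ (fun z : ℂ => a + z • d) t :=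
      (differentiableAt_const _).add (differentiableAt_id.smul_const d)
    exact ((sit.fb.dG _).comp t h1).differentiableWithinAt
  obtain ⟨γ, r₁, hr₁, hr₁0, hγ0, hγd, hγ, -⟩ :=
    exists_section hO sit.dH hy₀ (H_det sit y₀.1 hy₀.1 y₀.2 hy₀.2) one_pos hP h₀
  have hev : ∀ᶠ z in 𝓝 ζ₀, 1 / 2 < (Q (γ z).2).re ∧ (Q (γ z).2).re < (Q y₀.2).re + η := by
    have h1 : DifferentiableAt ℂ γ ζ₀ :=
      hγd.differentiableAt (isOpen_ball.mem_nhds (mem_ball_self hr₁))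
    have h2 : DifferentiableAt ℂ Q (γ ζ₀).2 := by
      rw [hγ0]
      exact fin_diffQ sit.cap (subset_closure hy₀.2)
    have h3 : ContinuousAt (fun t => (Q (γ t).2).re) ζ₀ :=
      Complex.continuous_re.continuousAt.comp
        (h2.continuousAt.comp (f := fun t => (γ t).2) h1.snd.continuousAt)
    refine (h3.eventually_const_lt ?_).and (h3.eventually_lt_const ?_)
    · beta_reduce
      rw [hγ0]
      exact hp₀
    · beta_reduce
      rw [hγ0]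
      linarith
  obtain ⟨r₂, hr₂, hr₂'⟩ := Metric.eventually_nhds_iff_ball.1
    (hev.and (isOpen_ball.mem_nhds (mem_ball_self hr₁ : ζ₀ ∈ ball ζ₀ r₁)))
  have hd0 : 0 < ‖ζ₁ - ζ₀‖ := norm_pos_iff.2 (sub_ne_zero.2 (Ne.symm hζ))
  obtain ⟨r, hr, hrr₂, hrd⟩ : ∃ r : ℝ, 0 < r ∧ r < r₂ ∧ r < ‖ζ₁ - ζ₀‖ := by
    obtain ⟨r, h1, h2⟩ := exists_between (lt_min hr₂ hd0)
    exact ⟨r, h1, (lt_min_iff.1 h2).1, (lt_min_iff.1 h2).2⟩
  have hstar : ∀ y ∈ Leaf b ×ˢ T, 1 / 2 < (Q y.2).re → ∀ z : ℂ, ‖z - ζ₀‖ ≤ r →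
      H y = G (a + z • d) → (Q y.2).re ≤ 1 / 2 + ((Q y₀.2).re + η - 1 / 2) := by
    intro y hy hp z hz hHy
    have hzb : z ∈ ball ζ₀ r₂ := by
      rw [mem_ball, dist_eq_norm]
      exact hz.trans_lt hrr₂
    obtain ⟨⟨h1, h2⟩, h3⟩ := hr₂' z hzb
    have h4 : y = γ z := H_inj sit hy (hγ z h3).1 hp h1 (hHy.trans (hγ z h3).2.symm)
    rw [h4]
    linarith
  have hc : 0 < (Q y₀.2).re + η - 1 / 2 := by linarith
  have key : ∀ ε > 0, (Q y₁.2).re - 1 / 2 + ε * Real.log (‖(ζ₁ - ζ₀)⁻¹‖ * r) ≤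
      (Q y₀.2).re + η - 1 / 2 := by
    intro ε hε
    have hX : (((ζ₁ - ζ₀)⁻¹, y₁) : ℂ × (ℂ × E)) ∈ FinX b T Q G H a d ζ₀ r := by
      refine ⟨inv_ne_zero (sub_ne_zero.2 (Ne.symm hζ)), ?_, hy₁, hp₁, ?_⟩
      · change ‖(ζ₁ - ζ₀)⁻¹‖ < r⁻¹
        rw [norm_inv]
        exact inv_strictAnti₀ hr hrd
      · change H y₁ = G (a + (ζ₀ + ((ζ₁ - ζ₀)⁻¹)⁻¹) • d)
        rw [inv_inv, add_sub_cancel, h₁]
    exact pl (FinX b T Q G H a d ζ₀ r)
      (fun x => (Q x.2.2).re - 1 / 2 + ε * Real.log (‖x.1‖ * r)) (fun x => x.2.1)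
      (fun x => e2 b x.2.1) (fun x hx => fin_hloc sit hr hx)
      ⟨1 / 2, fun x hx => by
        obtain ⟨h1, h2, h3, h4, h5⟩ := hx
        have h6 := sit.cap.lt_one _ h3.2
        have h7 : Real.log (‖x.1‖ * r) ≤ 0 := by
          apply Real.log_nonpos (by positivity)
          rw [← inv_mul_cancel₀ hr.ne']
          exact mul_le_mul_of_nonneg_right h2.le hr.le
        have h8 := mul_nonpos_of_nonneg_of_nonpos hε.le h7
        linarith⟩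
      ⟨r⁻¹, fun x hx => hx.2.1.le⟩ (fun x _ => norm_or b _) ((Q y₀.2).re + η - 1 / 2)
      (fun c' hc' R => fin_cpt sit hr hε hc hstar hc' R) _ hX
  -- let `ε` tend to zero
  have hlim : Tendsto (fun ε : ℝ => (Q y₁.2).re - 1 / 2 +
      ε * Real.log (‖(ζ₁ - ζ₀)⁻¹‖ * r)) (𝓝[>] 0) (𝓝 ((Q y₁.2).re - 1 / 2 +
      0 * Real.log (‖(ζ₁ - ζ₀)⁻¹‖ * r))) := by
    apply Tendsto.mono_left _ nhdsWithin_le_nhds
    exact tendsto_const_nhds.add (tendsto_id.mul_const _)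
  have h2 := le_of_tendsto hlim (eventually_mem_nhdsWithin.mono key)
  rw [zero_mul, add_zero] at h2
  linarith

theorem no_sit (sit : Sit b T S Q Ω F G V h H) : False := by
  obtain ⟨s₀, hs₀, hp₀⟩ := sit.cap.peak (1 / 2) (by norm_num)
  obtain ⟨s₁, hs₁, hp₁⟩ := sit.cap.peak (Q s₀).re (sit.cap.lt_one s₀ hs₀)
  have hm : ∀ s ∈ T, H ((1 : ℂ), s) ∈ Ω := fun s hs => H_mem sit 1 (one_mem_Leaf b) s hs
  have h₀ : H ((1 : ℂ), s₀) = G (F (H (1, s₀)) + (0 : ℂ) • (F (H (1, s₁)) - F (H (1, s₀)))) := by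
    rw [zero_smul, add_zero, sit.fb.GF _ (hm s₀ hs₀)]
  have h₁ : H ((1 : ℂ), s₁) = G (F (H (1, s₀)) + (1 : ℂ) • (F (H (1, s₁)) - F (H (1, s₀)))) := by
    rw [one_smul, add_sub_cancel, sit.fb.GF _ (hm s₁ hs₁)]
  have := line_le sit (y₀ := (1, s₀)) (y₁ := (1, s₁)) ⟨one_mem_Leaf b, hs₀⟩ ⟨one_mem_Leaf b, hs₁⟩
    hp₀ (hp₀.trans hp₁) h₀ h₁
  exact absurd hp₁ (not_lt.2 this)

end Pool.Agent.FBL
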