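import Pool.Agent.FBL.Defs

/-! # Limits of points of `Leaf × T` -/

open Set Metric Topology Filter

namespace Pool.Agent.FBL

variable {E : Type} [NormedAddCommGroup E] [NormedSpace ℂ E] [FiniteDimensional ℂ E]

variable {b : Bool} {T S : Set E} {Q : E → ℂ} {Ω : Set (ℂ × E)} {F G : ℂ × E → ℂ × E}
  {V : Set (ℂ × E)} {h H : ℂ × E → ℂ × E}

theorem lim_cases (sit : Sit b T S Q Ω F G V h H) (hmem : ∀ u ∈ Leaf b, ∀ s ∈ T, H (u, s) ∈ Ω)
    {y : ℕ → ℂ × E} {z : ℂ × E} {R κ : ℝ}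
    (hy : ∀ n, (y n).1 ∈ K b R ∧ (y n).2 ∈ T ∧ κ ≤ (Q (y n).2).re) (hκ : 0 < κ)
    (hlim : Tendsto y atTop (𝓝 z)) :
    z.1 ∈ K b R ∧ z.2 ∈ closure T ∧ κ ≤ (Q z.2).re ∧
      Tendsto (fun n => (Q (y n).2).re) atTop (𝓝 (Q z.2).re) ∧
      ((z.2 ∈ T ∧ Tendsto (fun n => H (y n)) atTop (𝓝 (H z)) ∧ H z ∈ Ω) ∨
        (z.2 ∈ S ∧ z ∈ V ∧ (∀ᶠ n in atTop, y n ∈ V ∧ H (y n) = h (y n)) ∧
          Tendsto (fun n => H (y n)) atTop (𝓝 (h z)) ∧ h z ∉ Ω)) := by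
  obtain ⟨W, hWo, hTW, hQ⟩ := sit.cap.diff
  have h1 : Tendsto (fun n => (y n).1) atTop (𝓝 z.1) := (continuous_fst.tendsto z).comp hlim
  have h2 : Tendsto (fun n => (y n).2) atTop (𝓝 z.2) := (continuous_snd.tendsto z).comp hlim
  have hz1 : z.1 ∈ K b R :=
    (isCompact_K b R).isClosed.mem_of_tendsto h1 (Eventually.of_forall fun n => (hy n).1)
  have hz2 : z.2 ∈ closure T :=
    mem_closure_of_tendsto h2 (Eventually.of_forall fun n => (hy n).2.1)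
  have hQc : ContinuousAt Q z.2 :=
    (hQ.differentiableAt (hWo.mem_nhds (hTW hz2))).continuousAt
  have h3 : Tendsto (fun n => (Q (y n).2).re) atTop (𝓝 (Q z.2).re) :=
    (Complex.continuous_re.tendsto _).comp (hQc.tendsto.comp h2)
  have h4 : κ ≤ (Q z.2).re := ge_of_tendsto h3 (Eventually.of_forall fun n => (hy n).2.2)
  refine ⟨hz1, hz2, h4, h3, ?_⟩
  rcases sit.cap.bdry z.2 hz2 (hκ.trans_le h4) with h5 | h5
  · left
    have hzm : z ∈ Leaf b ×ˢ T := ⟨K_subset_Leaf b R hz1, h5⟩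
    have hopen : IsOpen (Leaf b ×ˢ T) := (isOpen_Leaf b).prod sit.cap.isOpen
    have hc : ContinuousAt H z :=
      (sit.dH.differentiableAt (hopen.mem_nhds hzm)).continuousAt
    exact ⟨h5, hc.tendsto.comp hlim, hmem z.1 hzm.1 z.2 h5⟩
  · right
    have hzV : z ∈ V := sit.LS ⟨K_subset_Leaf b R hz1, h5⟩
    obtain ⟨δ, hδ, hn⟩ := sit.near R
    have h6 : Tendsto (fun n => infDist (y n).2 S) atTop (𝓝 0) := by
      have h6' := ((continuous_infDist_pt S).tendsto z.2).comp h2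
      rw [infDist_zero_of_mem h5] at h6'
      exact h6'
    have h7 : ∀ᶠ n in atTop, y n ∈ V ∧ H (y n) = h (y n) := by
      filter_upwards [h6.eventually (gt_mem_nhds hδ)] with n hn'
      exact hn (y n).1 (hy n).1 (y n).2 (hy n).2.1 hn'
    have hc : ContinuousAt h z :=
      (sit.dh.differentiableAt (sit.isOpenV.mem_nhds hzV)).continuousAt
    have h8 : Tendsto (fun n => H (y n)) atTop (𝓝 (h z)) :=
      (hc.tendsto.comp hlim).congr' (h7.mono fun n hn => hn.2.symm)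
    exact ⟨h5, hzV, h7, h8, sit.outside z.1 (K_subset_Leaf b R hz1) z.2 h5⟩

end Pool.Agent.FBL
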