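import Pool.Agent.FBL.Defs
import Pool.Agent.YTDA.Osgood

/-! # Local sections of a local biholomorphism -/

open Set Metric Topology Filter

namespace Pool.Agent.FBL

variable {X : Type} [NormedAddCommGroup X] [NormedSpace ℂ X] [FiniteDimensional ℂ X]

/-- the local inverse as an open partial homeomorphism with smooth inverse -/
theorem loc_aux {O : Set X} (hO : IsOpen O) {H : X → X} (hH : DifferentiableOn ℂ H O) {y₀ : X}
    (hy : y₀ ∈ O) (hdet : (fderiv ℂ H y₀).det ≠ 0) :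
    ∃ e : OpenPartialHomeomorph X X, (e : X → X) = H ∧ y₀ ∈ e.source ∧
      ContDiffAt ℂ 1 e.symm (H y₀) := by
  have : CompleteSpace X := FiniteDimensional.complete ℂ X
  have h1 : ContDiffAt ℂ 1 H y₀ :=
    ((YTDA.contDiffOn_of_differentiableOn hO hH).contDiffAt (hO.mem_nhds hy)).of_le (by
      exact_mod_cast le_top)
  have h2 : HasFDerivAt H
      ((fderiv ℂ H y₀).toContinuousLinearEquivOfDetNeZero hdet : X →L[ℂ] X) y₀ := by
    rw [ContinuousLinearMap.coe_toContinuousLinearEquivOfDetNeZero]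
    exact (h1.differentiableAt one_ne_zero).hasFDerivAt
  exact ⟨h1.toOpenPartialHomeomorph H h2 one_ne_zero, h1.toOpenPartialHomeomorph_coe h2 one_ne_zero,
    h1.mem_toOpenPartialHomeomorph_source h2 one_ne_zero, h1.to_localInverse h2 one_ne_zero⟩

theorem locInj {O : Set X} (hO : IsOpen O) {H : X → X} (hH : DifferentiableOn ℂ H O) {y₀ : X}
    (hy : y₀ ∈ O) (hdet : (fderiv ℂ H y₀).det ≠ 0) : ∃ U ∈ 𝓝 y₀, InjOn H U := by
  obtain ⟨e, he, hs, -⟩ := loc_aux hO hH hy hdet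
  exact ⟨e.source, e.open_source.mem_nhds hs, he ▸ e.injOn⟩

theorem exists_section {O : Set X} (hO : IsOpen O) {H : X → X} (hH : DifferentiableOn ℂ H O)
    {y₀ : X} (hy : y₀ ∈ O) (hdet : (fderiv ℂ H y₀).det ≠ 0) {P : ℂ → X} {t₀ : ℂ} {r₀ : ℝ}
    (hr₀ : 0 < r₀) (hP : DifferentiableOn ℂ P (ball t₀ r₀)) (h0 : H y₀ = P t₀) :
    ∃ (γ : ℂ → X) (r : ℝ), 0 < r ∧ r ≤ r₀ ∧ γ t₀ = y₀ ∧ DifferentiableOn ℂ γ (ball t₀ r) ∧
      (∀ t ∈ ball t₀ r, γ t ∈ O ∧ H (γ t) = P t) ∧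
      ∃ U ∈ 𝓝 (t₀, y₀), ∀ z ∈ U, H z.2 = P z.1 → z.1 ∈ ball t₀ r ∧ z.2 = γ z.1 := by
  obtain ⟨e, he, hs, hsymm⟩ := loc_aux hO hH hy hdet
  have hPt : ContinuousAt P t₀ :=
    (hP.differentiableAt (ball_mem_nhds t₀ hr₀)).continuousAt
  have hinv : e.symm (P t₀) = y₀ := by
    rw [← h0, ← he]; exact e.left_inv hs
  have htar : P t₀ ∈ e.target := by
    rw [← h0, ← he]; exact e.map_source hs
  have hsymm' : ContDiffAt ℂ 1 e.symm (P t₀) := h0 ▸ hsymm
  have hev1 : ∀ᶠ z in 𝓝 (P t₀), DifferentiableAt ℂ e.symm z ∧ z ∈ e.target ∧ e.symm z ∈ O := by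
    have a1 : ∀ᶠ z in 𝓝 (P t₀), DifferentiableAt ℂ e.symm z :=
      (hsymm'.eventually (by simp)).mono fun z hz => hz.differentiableAt one_ne_zero
    have a2 : ∀ᶠ z in 𝓝 (P t₀), z ∈ e.target := e.open_target.mem_nhds htar
    have a3 : ∀ᶠ z in 𝓝 (P t₀), e.symm z ∈ O := by
      refine hsymm'.continuousAt.eventually_mem ?_
      rw [hinv]
      exact hO.mem_nhds hy
    exact a1.and (a2.and a3)
  obtain ⟨r₁, hr₁, hball⟩ := Metric.eventually_nhds_iff_ball.1 (hPt.eventually hev1)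
  refine ⟨fun t => e.symm (P t), min r₀ r₁, lt_min hr₀ hr₁, min_le_left _ _, hinv, ?_, ?_, ?_⟩
  · intro t ht
    have ht0 : t ∈ ball t₀ r₀ := ball_subset_ball (min_le_left _ _) ht
    have ht1 : t ∈ ball t₀ r₁ := ball_subset_ball (min_le_right _ _) ht
    exact ((hball t ht1).1.comp t
      (hP.differentiableAt (isOpen_ball.mem_nhds ht0))).differentiableWithinAt
  · intro t ht
    have ht1 : t ∈ ball t₀ r₁ := ball_subset_ball (min_le_right _ _) ht
    refine ⟨(hball t ht1).2.2, ?_⟩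
    rw [← he]
    exact e.right_inv (hball t ht1).2.1
  · refine ⟨ball t₀ (min r₀ r₁) ×ˢ e.source,
      prod_mem_nhds (ball_mem_nhds _ (lt_min hr₀ hr₁)) (e.open_source.mem_nhds hs), ?_⟩
    rintro ⟨t, y⟩ ⟨ht, hys⟩ hEq
    refine ⟨ht, ?_⟩
    simp only at hEq hys ⊢
    rw [← hEq, ← he]
    exact (e.left_inv hys).symm

end Pool.Agent.FBL
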