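import Pool.Agent.FBL.PL
import Pool.Agent.FBL.Loc
import Pool.Agent.FBL.Lim
import Pool.Agent.FBL.ContA
import Pool.Agent.FBL.ContB

/-! # Injectivity of the extension -/

open Set Metric Topology Filter

namespace Pool.Agent.FBL

variable {E : Type} [NormedAddCommGroup E] [NormedSpace ℂ E] [FiniteDimensional ℂ E]
  [Nontrivial E]

variable {b : Bool} {T S : Set E} {Q : E → ℂ} {Ω : Set (ℂ × E)} {F G : ℂ × E → ℂ × E}
  {V : Set (ℂ × E)} {h H : ℂ × E → ℂ × E}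

omit [FiniteDimensional ℂ E] [Nontrivial E] in
theorem inj_diffQ (sit : Sit b T S Q Ω F G V h H) : DifferentiableOn ℂ Q T := by
  obtain ⟨W, hW, hTW, hQ⟩ := sit.cap.diff
  exact hQ.mono (subset_closure.trans hTW)

omit [FiniteDimensional ℂ E] [Nontrivial E] in
/-- the set of coincidences for the pair `(u₁, s₁ + t d)`, `y` -/
theorem inj_aff_diff (s₁ d : E) : Differentiable ℂ (fun t : ℂ => s₁ + t • d) :=
  (differentiable_id.smul_const d).const_add s₁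

theorem inj_cpt (sit : Sit b T S Q Ω F G V h H) {u₁ : ℂ} (hu₁ : u₁ ∈ Leaf b) {s₁ d : E}
    {B : ℝ} (hB : ∀ t : ℂ, s₁ + t • d ∈ T → ‖t‖ ≤ B) (c' : ℝ) (hc' : 0 < c')
    (R : ℝ) :
    IsCompact {x ∈ {x : ℂ × (ℂ × E) | s₁ + x.1 • d ∈ T ∧ x.2 ∈ Leaf b ×ˢ T ∧
      H x.2 = H (u₁, s₁ + x.1 • d) ∧ x.2 ≠ (u₁, s₁ + x.1 • d)} |
      c' ≤ (Q (s₁ + x.1 • d)).re + (Q x.2.2).re - 1 ∧ ‖x.2.1‖ ≤ R ∧ ‖e2 b x.2.1‖ ≤ R} := by
  have : ProperSpace E := FiniteDimensional.proper ℂ E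
  have hmem := H_mem sit
  obtain ⟨R', hR'1, hR'⟩ := exists_mem_K b hu₁
  rw [isCompact_iff_isSeqCompact]
  intro z hz
  have hbddT := sit.cap.bdd
  have hbd : Bornology.IsBounded ((closedBall (0 : ℂ) B) ×ˢ (K b R ×ˢ T)) :=
    isBounded_closedBall.prod ((isCompact_K b R).isBounded.prod hbddT)
  have hzb : ∀ n, z n ∈ (closedBall (0 : ℂ) B) ×ˢ (K b R ×ˢ T) := by
    intro n
    obtain ⟨⟨h1, h2, h3, h4⟩, h5, h6, h7⟩ := hz n
    exact ⟨mem_closedBall_zero_iff.2 (hB _ h1), ⟨h2.1, h6, h7⟩, h2.2⟩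
  obtain ⟨a, -, φ, hφ, ha⟩ := tendsto_subseq_of_bounded hbd hzb
  refine ⟨a, ?_, φ, hφ, ha⟩
  obtain ⟨t, y⟩ := a
  have hat : Tendsto (fun n => (z (φ n)).1) atTop (𝓝 t) :=
    (continuous_fst.tendsto _).comp ha
  have hay : Tendsto (fun n => (z (φ n)).2) atTop (𝓝 y) :=
    (continuous_snd.tendsto _).comp ha
  have hax : Tendsto (fun n => ((u₁, s₁ + (z (φ n)).1 • d) : ℂ × E)) atTop
      (𝓝 (u₁, s₁ + t • d)) :=
    tendsto_const_nhds.prodMk_nhds (((inj_aff_diff s₁ d).continuous.tendsto t).comp hat)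
  -- the bounds
  have hky : ∀ n, ((z (φ n)).2).1 ∈ K b R ∧ ((z (φ n)).2).2 ∈ T ∧ c' ≤ (Q ((z (φ n)).2).2).re := by
    intro n
    obtain ⟨⟨h1, h2, h3, h4⟩, h5, h6, h7⟩ := hz (φ n)
    have := sit.cap.lt_one _ h1
    exact ⟨⟨h2.1, h6, h7⟩, h2.2, by linarith⟩
  have hkx : ∀ n, ((u₁, s₁ + (z (φ n)).1 • d) : ℂ × E).1 ∈ K b R' ∧
      ((u₁, s₁ + (z (φ n)).1 • d) : ℂ × E).2 ∈ T ∧
      c' ≤ (Q ((u₁, s₁ + (z (φ n)).1 • d) : ℂ × E).2).re := by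
    intro n
    obtain ⟨⟨h1, h2, h3, h4⟩, h5, h6, h7⟩ := hz (φ n)
    have := sit.cap.lt_one _ h2.2
    exact ⟨hR', h1, by simpa using (by linarith : c' ≤ (Q (s₁ + (z (φ n)).1 • d)).re)⟩
  obtain ⟨hy1, hy2, hy3, hy4, hy5⟩ := lim_cases sit hmem hky hc' hay
  obtain ⟨hx1, hx2, hx3, hx4, hx5⟩ := lim_cases sit hmem hkx hc' hax
  have hEq : ∀ n, H ((z (φ n)).2) = H (u₁, s₁ + (z (φ n)).1 • d) := fun n => (hz (φ n)).1.2.2.1
  have hNe : ∀ n, (z (φ n)).2 ≠ (u₁, s₁ + (z (φ n)).1 • d) := fun n => (hz (φ n)).1.2.2.2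
  rcases hy5 with ⟨hyT, hyH, hyΩ⟩ | ⟨hyS, hyV, hyE, hyH, hyΩ⟩
  · rcases hx5 with ⟨hxT, hxH, hxΩ⟩ | ⟨hxS, hxV, hxE, hxH, hxΩ⟩
    · have hlimeq : H y = H (u₁, s₁ + t • d) := by
        refine tendsto_nhds_unique hyH ?_
        refine hxH.congr (fun n => (hEq n).symm)
      have hne : y ≠ (u₁, s₁ + t • d) := by
        intro hyeq
        have hO : IsOpen (Leaf b ×ˢ T) := (isOpen_Leaf b).prod sit.cap.isOpen
        obtain ⟨U, hU, hinj⟩ := locInj hO sit.dH (y₀ := y) ⟨hy1.1, hyT⟩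
          (H_det sit y.1 hy1.1 y.2 hyT)
        have e1 := hay.eventually hU
        have e2' := hax.eventually (by rw [← hyeq]; exact hU)
        obtain ⟨n, h1, h2⟩ := (e1.and e2').exists
        exact hNe n (hinj h1 h2 (hEq n))
      refine ⟨⟨hxT, ⟨hy1.1, hyT⟩, hlimeq, hne⟩, ?_, hy1.2.1, hy1.2.2⟩
      have hsum : Tendsto (fun n => (Q (s₁ + (z (φ n)).1 • d)).re + (Q ((z (φ n)).2).2).re - 1)
          atTop (𝓝 ((Q (s₁ + t • d)).re + (Q y.2).re - 1)) := (hx4.add hy4).sub_const 1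
      exact ge_of_tendsto' hsum (fun n => (hz (φ n)).2.1)
    · exfalso
      have : H y = h (u₁, s₁ + t • d) := by
        refine tendsto_nhds_unique hyH ?_
        exact hxH.congr (fun n => (hEq n).symm)
      exact hxΩ (this ▸ hyΩ)
  · rcases hx5 with ⟨hxT, hxH, hxΩ⟩ | ⟨hxS, hxV, hxE, hxH, hxΩ⟩
    · exfalso
      have : H (u₁, s₁ + t • d) = h y := by
        refine tendsto_nhds_unique hxH ?_
        exact hyH.congr hEq
      exact hyΩ (this ▸ hxΩ)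
    · exfalso
      obtain ⟨n, ⟨h1, h2⟩, h3, h4⟩ := (hyE.and hxE).exists
      refine hNe n (sit.inj h1 h3 ?_)
      rw [← h2, ← h4, hEq n]

theorem H_pair (sit : Sit b T S Q Ω F G V h H) {x y : ℂ × E} (hx : x ∈ Leaf b ×ˢ T)
    (hy : y ∈ Leaf b ×ˢ T) (hne : x ≠ y) (heq : H x = H y) :
    (Q x.2).re + (Q y.2).re ≤ 1 := by
  obtain ⟨u₁, s₁⟩ := x
  obtain ⟨hu₁, hs₁⟩ := hx
  simp only at hu₁ hs₁
  obtain ⟨d, hd⟩ := exists_ne (0 : E)
  have hO : IsOpen (Leaf b ×ˢ T) := (isOpen_Leaf b).prod sit.cap.isOpen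
  have hQT := inj_diffQ sit
  -- bound for `t`
  obtain ⟨C, hC⟩ := sit.cap.bdd.exists_norm_le
  have hB : ∀ t : ℂ, s₁ + t • d ∈ T → ‖t‖ ≤ (C + ‖s₁‖) / ‖d‖ := by
    intro t ht
    rw [le_div_iff₀ (norm_pos_iff.2 hd)]
    have h1 : ‖t • d‖ ≤ C + ‖s₁‖ := by
      have h2 : t • d = (s₁ + t • d) - s₁ := by abel
      rw [h2]
      exact (norm_sub_le _ _).trans (by linarith [hC _ ht])
    rwa [norm_smul] at h1
  set 𝒳 : Set (ℂ × (ℂ × E)) := {x : ℂ × (ℂ × E) | s₁ + x.1 • d ∈ T ∧ x.2 ∈ Leaf b ×ˢ T ∧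
      H x.2 = H (u₁, s₁ + x.1 • d) ∧ x.2 ≠ (u₁, s₁ + x.1 • d)} with h𝒳
  set f : ℂ × (ℂ × E) → ℝ := fun x => (Q (s₁ + x.1 • d)).re + (Q x.2.2).re - 1 with hf
  have key := pl 𝒳 f (fun x => x.2.1) (fun x => e2 b x.2.1) ?_ ?_ ?_ ?_ 0 ?_
  · have h0 : ((0 : ℂ), y) ∈ 𝒳 := by
      refine ⟨by simpa using hs₁, hy, by simpa using heq.symm, ?_⟩
      simpa using hne.symm
    have := key _ h0
    simp only [hf, zero_smul, add_zero] at this
    simp only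
    linarith
  · -- sections
    rintro ⟨t₀, y₀⟩ ⟨ht₀, hy₀, hH₀, hne₀⟩
    simp only at ht₀ hy₀ hH₀ hne₀
    have hcont : Continuous (fun t : ℂ => s₁ + t • d) := (inj_aff_diff s₁ d).continuous
    have hopen : IsOpen ((fun t : ℂ => s₁ + t • d) ⁻¹' T) := sit.cap.isOpen.preimage hcont
    obtain ⟨r₀, hr₀, hball⟩ := Metric.isOpen_iff.1 hopen t₀ ht₀
    have hP : DifferentiableOn ℂ (fun t : ℂ => H (u₁, s₁ + t • d)) (ball t₀ r₀) := by
      refine sit.dH.comp (t := Leaf b ×ˢ T) (f := fun t : ℂ => ((u₁, s₁ + t • d) : ℂ × E)) ?_ ?_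
      · exact ((differentiable_const u₁).prodMk (inj_aff_diff s₁ d)).differentiableOn
      · intro t ht
        exact ⟨hu₁, hball ht⟩
    obtain ⟨γ, r, hr, hrr₀, hγ0, hγd, hγ, U, hU, hUn⟩ := exists_section hO sit.dH hy₀
      (H_det sit y₀.1 hy₀.1 y₀.2 hy₀.2) hr₀ hP hH₀
    -- shrink so that `γ t ≠ (u₁, s₁ + t d)`
    have hc1 : ContinuousAt γ t₀ := (hγd.differentiableAt (ball_mem_nhds t₀ hr)).continuousAt
    have hc2 : ContinuousAt (fun t : ℂ => ((u₁, s₁ + t • d) : ℂ × E)) t₀ :=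
      (continuous_const.prodMk hcont).continuousAt
    have hev : ∀ᶠ t in 𝓝 t₀, γ t ≠ (u₁, s₁ + t • d) := by
      have := (hc1.prodMk hc2).eventually_mem
        (isClosed_diagonal.isOpen_compl.mem_nhds (x := (γ t₀, ((u₁, s₁ + t₀ • d) : ℂ × E)))
          (by simpa [hγ0] using hne₀))
      filter_upwards [this] with t ht
      simpa using ht
    obtain ⟨r₁, hr₁, hball₁⟩ := Metric.eventually_nhds_iff_ball.1 hev
    set r₂ := min r r₁ with hr₂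
    have hr₂0 : 0 < r₂ := lt_min hr hr₁
    have hsub : ball t₀ r₂ ⊆ ball t₀ r := ball_subset_ball (min_le_left _ _)
    have hsub₁ : ball t₀ r₂ ⊆ ball t₀ r₁ := ball_subset_ball (min_le_right _ _)
    have hsub₀ : ball t₀ r₂ ⊆ ball t₀ r₀ := hsub.trans (ball_subset_ball hrr₀)
    have hγd' := hγd.mono hsub
    have hγT : MapsTo γ (ball t₀ r₂) (Leaf b ×ˢ T) := fun t ht => (hγ t (hsub ht)).1
    have hγ1 : DifferentiableOn ℂ (fun t => (γ t).1) (ball t₀ r₂) := hγd'.fst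
    have hγ2 : DifferentiableOn ℂ (fun t => (γ t).2) (ball t₀ r₂) := hγd'.snd
    refine ⟨γ, r₂, ⟨hr₂0, hγ0, hγd'.continuousOn, ?_, U ∩ (Prod.fst ⁻¹' ball t₀ r₂), ?_, ?_⟩,
      ⟨fun t => Q (s₁ + t • d) + Q (γ t).2 - 1, ?_, ?_⟩, hγ1, ?_⟩
    · intro t ht
      exact ⟨hball (hsub₀ ht), hγT ht, (hγ t (hsub ht)).2, hball₁ t (hsub₁ ht)⟩
    · exact inter_mem hU (continuous_fst.continuousAt.preimage_mem_nhds (ball_mem_nhds t₀ hr₂0))
    · rintro ⟨t, w⟩ ⟨⟨hw1, hw2⟩, hw3⟩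
      exact ⟨hw2, (hUn (t, w) hw1 hw3.2.2.1).2⟩
    · refine DifferentiableOn.sub_const ?_ _
      refine DifferentiableOn.add ?_ ?_
      · exact hQT.comp (inj_aff_diff s₁ d).differentiableOn (fun t ht => hball (hsub₀ ht))
      · exact hQT.comp hγ2 (fun t ht => (hγT ht).2)
    · intro t ht
      simp [hf]
    · intro t ht
      have h1 : DifferentiableAt ℂ (e2 b) ((fun t => (γ t).1) t) := differentiableAt_e2 b (hγT ht).1
      have h2 : DifferentiableWithinAt ℂ (e2 b ∘ fun t => (γ t).1) (ball t₀ r₂) t :=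
        h1.comp_differentiableWithinAt t (hγ1 t ht)
      exact h2
  · refine ⟨1, ?_⟩
    rintro ⟨t, w⟩ ⟨h1, h2, -, -⟩
    have a1 := sit.cap.lt_one _ h1
    have a2 := sit.cap.lt_one _ h2.2
    simp only [hf]
    linarith
  · exact ⟨(C + ‖s₁‖) / ‖d‖, fun x hx => hB _ hx.1⟩
  · intro x _
    exact norm_or b _
  · intro c' hc' R
    exact inj_cpt sit hu₁ hB c' hc' R

theorem H_inj (sit : Sit b T S Q Ω F G V h H) {x y : ℂ × E} (hx : x ∈ Leaf b ×ˢ T)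
    (hy : y ∈ Leaf b ×ˢ T) (hx2 : 1 / 2 < (Q x.2).re) (hy2 : 1 / 2 < (Q y.2).re)
    (heq : H x = H y) : x = y := by
  by_contra hne
  have := H_pair sit hx hy hne heq
  linarith

end Pool.Agent.FBL
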