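import Pool.Agent.FBL.Star
import Pool.Agent.FBL.CapEx
import Pool.Agent.FBL.Fin

/-! # Assembly in `ℂ × E` -/

open Set Metric Topology Filter

namespace Pool.Agent.FBL

variable {E : Type} [NormedAddCommGroup E] [NormedSpace ℂ E] [FiniteDimensional ℂ E]
  [Nontrivial E]

theorem no_family (b : Bool) {Ω : Set (ℂ × E)} {F G : ℂ × E → ℂ × E} (fb : FB Ω F G) {D : Set E}
    (hD : IsOpen D) {a : E} (ha : a ∈ frontier D) {N : Set E} (hN : IsOpen N) (haN : a ∈ N)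
    {P : E → ℂ} (hP : DifferentiableOn ℂ P N) (hPa : P a = 0)
    (hpeak : ∀ s ∈ closure D ∩ N, s ≠ a → (P s).re < 0) {V : Set (ℂ × E)} (hV : IsOpen V)
    (hRV : Leaf b ×ˢ (frontier D ∩ N) ⊆ V) {h : ℂ × E → ℂ × E} (hd : DifferentiableOn ℂ h V)
    (hinj : InjOn h V) (himm : ∀ x ∈ V, (fderiv ℂ h x).det ≠ 0)
    (hin : ∀ x ∈ V, x.2 ∈ D → h x ∈ Ω)
    (hout : ∀ x ∈ Leaf b ×ˢ (frontier D ∩ N), h x ∉ Ω) : False := by
  -- a neighbourhood `W` of `a` with `K b 2 × W ⊆ V`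
  have hK : K b 2 ×ˢ {a} ⊆ V := by
    rintro ⟨u, s⟩ ⟨hu, hs⟩
    have hs' : s = a := hs
    subst hs'
    exact hRV ⟨K_subset_Leaf b 2 hu, ha, haN⟩
  obtain ⟨A, W, hAo, hWo, hKA, haW, hAW⟩ :=
    generalized_tube_lemma (isCompact_K b 2) (isCompact_singleton (x := a)) hV hK
  have hW : W ∩ N ∈ 𝓝 a :=
    inter_mem (hWo.mem_nhds (haW rfl)) (hN.mem_nhds haN)
  obtain ⟨T, Q, r, hr, cap, hTD, hTW, hSW⟩ := exists_cap hD ha hN haN hP hPa hpeak hW
  have hS : Leaf b ×ˢ (frontier D ∩ closedBall a r) ⊆ V := by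
    rintro ⟨u, s⟩ ⟨hu, hs⟩
    exact hRV ⟨hu, hs.1, (hSW hs).2⟩
  have hcore : K b 2 ×ˢ closure T ⊆ V := by
    rintro ⟨u, s⟩ ⟨hu, hs⟩
    exact hAW ⟨hKA hu, (hTW hs).1⟩
  obtain ⟨H, hH, hnear, hco⟩ := ext_leaf b cap hV hd hS hcore
  exact no_sit (b := b) (T := T) (S := frontier D ∩ closedBall a r) (Q := Q) (Ω := Ω) (F := F)
    (G := G) (V := V) (h := h) (H := H)
    { cap := cap
      fb := fb
      isOpenV := hV
      dh := hd
      inj := hinj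
      imm := himm
      LS := hS
      inside := fun x hx hxT => hin x hx (hTD hxT)
      outside := fun u hu s hs => hout (u, s) ⟨hu, hs.1, (hSW hs).2⟩
      dH := hH
      near := hnear
      core := hco }

end Pool.Agent.FBL
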