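import Pool.Agent.FBL.Defs

/-! # A Phragmén–Lindelöf principle -/

open Set Metric Topology Filter

namespace Pool.Agent.FBL

section PLaux

variable {Y : Type} [TopologicalSpace Y]

private theorem pl_sec_mono {O O' : Set (ℂ × Y)} {x : ℂ × Y} {γ : ℂ → Y} {r r' : ℝ}
    (hs : Sec O x γ r) (hr' : 0 < r') (hrr : r' ≤ r) (hO : O' ⊆ O)
    (hm : ∀ t ∈ ball x.1 r', (t, γ t) ∈ O') : Sec O' x γ r' := by
  obtain ⟨hr, h1, h2, _, U, hU, h4⟩ := hs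
  refine ⟨hr', h1, h2.mono (ball_subset_ball hrr), hm, U ∩ {y | y.1 ∈ ball x.1 r'}, ?_, ?_⟩
  · refine inter_mem hU ?_
    exact continuous_fst.continuousAt.preimage_mem_nhds (ball_mem_nhds _ hr')
  · rintro y ⟨⟨hy1, hy2⟩, hy3⟩
    exact ⟨hy2, (h4 y ⟨hy1, hO hy3⟩).2⟩

private theorem pl_cont {Z : Type} [TopologicalSpace Z] {O : Set (ℂ × Y)} {x : ℂ × Y} {γ : ℂ → Y}
    {r : ℝ} (hs : Sec O x γ r) {ψ : ℂ × Y → Z}
    (hψ : ContinuousAt (fun t => ψ (t, γ t)) x.1) : ContinuousWithinAt ψ O x := by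
  obtain ⟨_, h1, _, _, U, hU, h4⟩ := hs
  have hx : ψ (x.1, γ x.1) = ψ x := by rw [h1]
  have h5 : Tendsto (fun y : ℂ × Y => ψ (y.1, γ y.1)) (𝓝[O] x) (𝓝 (ψ x)) := by
    rw [← hx]
    have h6 : Tendsto (fun y : ℂ × Y => y.1) (𝓝[O] x) (𝓝 x.1) :=
      continuous_fst.continuousAt.tendsto.mono_left nhdsWithin_le_nhds
    have h7 : Tendsto (fun t => ψ (t, γ t)) (𝓝 x.1) (𝓝 (ψ (x.1, γ x.1))) := hψ
    exact h7.comp h6
  refine h5.congr' ?_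
  filter_upwards [mem_nhdsWithin_of_mem_nhds hU, self_mem_nhdsWithin] with y hy1 hy2
  have := (h4 y ⟨hy1, hy2⟩).2
  show ψ (y.1, γ y.1) = ψ y
  rw [← this]

/-- local form of a function which is the real part of a holomorphic one -/
private def PLH (O : Set (ℂ × Y)) (φ : ℂ × Y → ℝ) : Prop :=
  ∀ x ∈ O, ∃ γ r, Sec O x γ r ∧
    ∃ g : ℂ → ℂ, DifferentiableOn ℂ g (ball x.1 r) ∧ ∀ t ∈ ball x.1 r, φ (t, γ t) = (g t).re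

private theorem pl_cont_re {O : Set (ℂ × Y)} {φ : ℂ × Y → ℝ} {x : ℂ × Y} {γ : ℂ → Y} {r : ℝ}
    (hs : Sec O x γ r) {g : ℂ → ℂ} (hg : DifferentiableOn ℂ g (ball x.1 r))
    (he : ∀ t ∈ ball x.1 r, φ (t, γ t) = (g t).re) : ContinuousWithinAt φ O x := by
  refine pl_cont hs ?_
  have h1 : ContinuousAt (fun t => (g t).re) x.1 :=
    Complex.continuous_re.continuousAt.comp
      (hg.differentiableAt (ball_mem_nhds _ hs.1)).continuousAt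
  refine h1.congr ?_
  filter_upwards [ball_mem_nhds x.1 hs.1] with t ht
  exact (he t ht).symm

private theorem pl_const {O : Set (ℂ × Y)} {φ : ℂ × Y → ℝ} {x : ℂ × Y} {γ : ℂ → Y} {r : ℝ}
    (hs : Sec O x γ r) {g : ℂ → ℂ} (hg : DifferentiableOn ℂ g (ball x.1 r))
    (he : ∀ t ∈ ball x.1 r, φ (t, γ t) = (g t).re) (hmax : ∀ y ∈ O, φ y ≤ φ x) :
    ∀ᶠ t in 𝓝 x.1, φ (t, γ t) = φ x := by
  obtain ⟨hr, h1, _, h3, _⟩ := hs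
  have hx : (g x.1).re = φ x := by rw [← he x.1 (mem_ball_self hr), h1]
  have hd : ∀ᶠ t in 𝓝 x.1, DifferentiableAt ℂ (fun t => Complex.exp (g t)) t := by
    filter_upwards [ball_mem_nhds x.1 hr] with t ht
    exact (hg.differentiableAt (isOpen_ball.mem_nhds ht)).cexp
  have hm : IsLocalMax (norm ∘ fun t => Complex.exp (g t)) x.1 := by
    show ∀ᶠ t in 𝓝 x.1, _
    filter_upwards [ball_mem_nhds x.1 hr] with t ht
    simp only [Function.comp_apply, Complex.norm_exp, Real.exp_le_exp]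
    rw [hx, ← he t ht]
    exact hmax _ (h3 t ht)
  filter_upwards [Complex.norm_eventually_eq_of_isLocalMax hd hm, ball_mem_nhds x.1 hr] with t ht htb
  rw [Complex.norm_exp, Complex.norm_exp, Real.exp_eq_exp] at ht
  rw [he t htb, ht, hx]

omit [TopologicalSpace Y] in
private theorem pl_right {M : Set (ℂ × Y)} {x : ℂ × Y} {γ : ℂ → Y}
    (h : ∀ᶠ t in 𝓝 x.1, (t, γ t) ∈ M) : ∃ y ∈ M, x.1.re < y.1.re := by
  obtain ⟨ε, hε, hb⟩ := Metric.eventually_nhds_iff_ball.1 h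
  refine ⟨(x.1 + ((ε / 2 : ℝ) : ℂ), γ (x.1 + ((ε / 2 : ℝ) : ℂ))), hb _ ?_, ?_⟩
  · rw [mem_ball, dist_eq_norm, add_sub_cancel_left, Complex.norm_real, Real.norm_eq_abs,
      abs_of_pos (half_pos hε)]
    exact half_lt_self hε
  · simp only [Complex.add_re, Complex.ofReal_re]
    linarith [half_pos hε]

/-- no compact superlevel sets -/
private theorem pl_nm [T2Space Y] {O : Set (ℂ × Y)} {φ : ℂ × Y → ℝ} (hc : PLH O φ) {c₀ : ℝ}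
    (hK : IsCompact {x ∈ O | c₀ ≤ φ x}) {x₀ : ℂ × Y} (hx₀ : x₀ ∈ O) (h₀ : c₀ ≤ φ x₀) : False := by
  have hcont : ContinuousOn φ O := by
    intro x hx
    obtain ⟨γ, r, hs, g, hg, he⟩ := hc x hx
    exact pl_cont_re hs hg he
  obtain ⟨x₁, hx₁, hmax⟩ := hK.exists_isMaxOn ⟨x₀, hx₀, h₀⟩ (hcont.mono fun _ h => h.1)
  have hmax' : ∀ y ∈ O, φ y ≤ φ x₁ := by
    intro y hy
    rcases le_or_gt c₀ (φ y) with h | h
    · exact hmax ⟨hy, h⟩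
    · exact h.le.trans hx₁.2
  have hM : IsCompact ({x ∈ O | c₀ ≤ φ x} ∩ φ ⁻¹' {φ x₁}) := by
    refine hK.of_isClosed_subset ?_ inter_subset_left
    exact (hcont.mono fun _ h => h.1).preimage_isClosed_of_isClosed hK.isClosed isClosed_singleton
  obtain ⟨x₂, hx₂, hmax₂⟩ := hM.exists_isMaxOn ⟨x₁, hx₁, rfl⟩
    ((Complex.continuous_re.comp continuous_fst).continuousOn)
  obtain ⟨γ, r, hs, g, hg, he⟩ := hc x₂ hx₂.1.1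
  have hφ : φ x₂ = φ x₁ := hx₂.2
  have h5 := pl_const hs hg he (fun y hy => hφ ▸ hmax' y hy)
  have h6 : ∀ᶠ t in 𝓝 x₂.1, (t, γ t) ∈ {x ∈ O | c₀ ≤ φ x} ∩ φ ⁻¹' {φ x₁} := by
    filter_upwards [h5, ball_mem_nhds x₂.1 hs.1] with t ht htb
    refine ⟨⟨hs.2.2.2.1 t htb, ?_⟩, ?_⟩
    · rw [ht, hφ]; exact hx₁.2
    · show φ (t, γ t) = φ x₁
      rw [ht, hφ]
  obtain ⟨y, hy, hlt⟩ := pl_right h6
  exact absurd hlt (not_lt.2 (hmax₂ hy))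

/-- subtracting `ε log ‖v‖` -/
private theorem pl_log {O : Set (ℂ × Y)} {φ : ℂ × Y → ℝ} {v : ℂ × Y → ℂ}
    (hc : ∀ x ∈ O, ∃ γ r, Sec O x γ r ∧
      (∃ g : ℂ → ℂ, DifferentiableOn ℂ g (ball x.1 r) ∧ ∀ t ∈ ball x.1 r, φ (t, γ t) = (g t).re) ∧
      DifferentiableOn ℂ (fun t => v (t, γ t)) (ball x.1 r)) (ε : ℝ) :
    PLH {x ∈ O | 1 < ‖v x‖} (fun x => φ x - ε * Real.log ‖v x‖) := by
  intro x hx
  obtain ⟨γ, r, hs, ⟨g, hg, he⟩, hv⟩ := hc x hx.1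
  have hvx : v (x.1, γ x.1) = v x := by rw [hs.2.1]
  have hv0 : v x ≠ 0 := by
    intro h
    have := hx.2
    rw [h, norm_zero] at this
    linarith
  have hca : ContinuousAt (fun t => v (t, γ t)) x.1 :=
    (hv.differentiableAt (ball_mem_nhds _ hs.1)).continuousAt
  have h1 : ∀ᶠ t in 𝓝 x.1, 1 < ‖v (t, γ t)‖ := by
    have : 1 < ‖v (x.1, γ x.1)‖ := by rw [hvx]; exact hx.2
    exact hca.norm.eventually (lt_mem_nhds this)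
  have h2 : ∀ᶠ t in 𝓝 x.1, v (t, γ t) / v x ∈ Complex.slitPlane := by
    have h3 : ContinuousAt (fun t => v (t, γ t) / v x) x.1 := hca.div_const _
    have h4 : (fun t => v (t, γ t) / v x) x.1 ∈ Complex.slitPlane := by
      simp only [hvx, div_self hv0]
      exact Complex.one_mem_slitPlane
    exact h3.preimage_mem_nhds (Complex.isOpen_slitPlane.mem_nhds h4)
  obtain ⟨r₁, hr₁, hb⟩ := Metric.eventually_nhds_iff_ball.1 (h1.and h2)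
  have hr' : 0 < min r r₁ := lt_min hs.1 hr₁
  have hsub : ball x.1 (min r r₁) ⊆ ball x.1 r := ball_subset_ball (min_le_left _ _)
  have hsub₁ : ball x.1 (min r r₁) ⊆ ball x.1 r₁ := ball_subset_ball (min_le_right _ _)
  refine ⟨γ, min r r₁, pl_sec_mono hs hr' (min_le_left _ _) (fun _ h => h.1)
    (fun t ht => ⟨hs.2.2.2.1 t (hsub ht), (hb t (hsub₁ ht)).1⟩),
    fun t => g t - (ε : ℂ) * (((Real.log ‖v x‖ : ℝ) : ℂ) + Complex.log (v (t, γ t) / v x)), ?_, ?_⟩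
  · refine (hg.mono hsub).sub (DifferentiableOn.const_mul (DifferentiableOn.const_add _ ?_) _)
    exact DifferentiableOn.clog ((hv.mono hsub).div_const _) (fun t ht => (hb t (hsub₁ ht)).2)
  · intro t ht
    have h5 : 0 < ‖v x‖ := norm_pos_iff.2 hv0
    have h6 : 0 < ‖v (t, γ t)‖ := one_pos.trans (hb t (hsub₁ ht)).1
    show φ (t, γ t) - ε * Real.log ‖v (t, γ t)‖ = _
    rw [Complex.sub_re, Complex.re_ofReal_mul, Complex.add_re, Complex.ofReal_re, Complex.log_re,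
      norm_div, Real.log_div h6.ne' h5.ne', he t (hsub ht)]
    ring

private def PLC (O : Set (ℂ × Y)) (φ : ℂ × Y → ℝ) (v₁ v₂ : ℂ × Y → ℂ) : Prop :=
  ∀ x ∈ O, ∃ γ r, Sec O x γ r ∧
      (∃ g : ℂ → ℂ, DifferentiableOn ℂ g (ball x.1 r) ∧ ∀ t ∈ ball x.1 r, φ (t, γ t) = (g t).re) ∧
      DifferentiableOn ℂ (fun t => v₁ (t, γ t)) (ball x.1 r) ∧
      DifferentiableOn ℂ (fun t => v₂ (t, γ t)) (ball x.1 r)

private theorem pl_half [T2Space Y] {O : Set (ℂ × Y)} {φ : ℂ × Y → ℝ} {v₁ v₂ : ℂ × Y → ℂ}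
    (hc : PLC O φ v₁ v₂) {A : ℝ} (hA : ∀ x ∈ O, φ x ≤ A)
    (hdisj : ∀ x ∈ O, ‖v₁ x‖ ≤ 1 ∨ ‖v₂ x‖ ≤ 1) {c' a : ℝ} (hca : c' ≤ a)
    (hcpt : ∀ R : ℝ, IsCompact {x ∈ O | c' ≤ φ x ∧ ‖v₁ x‖ ≤ R ∧ ‖v₂ x‖ ≤ R})
    (h1 : ∀ x ∈ O, ‖v₁ x‖ ≤ 1 → ‖v₂ x‖ ≤ 1 → c' ≤ φ x → φ x ≤ a) :
    ∀ x ∈ O, 1 < ‖v₁ x‖ → φ x ≤ a := by
  intro y hy hy1
  by_contra hlt
  rw [not_le] at hlt
  have hlog : 0 < Real.log ‖v₁ y‖ := Real.log_pos hy1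
  set ε : ℝ := (φ y - a) / 2 / Real.log ‖v₁ y‖ with hε
  have hε0 : 0 < ε := div_pos (half_pos (sub_pos.2 hlt)) hlog
  have hε1 : ε * Real.log ‖v₁ y‖ = (φ y - a) / 2 := by rw [hε]; field_simp
  have hcφ : ContinuousOn φ O := by
    intro x hx
    obtain ⟨γ, r, hs, ⟨g, hg, he⟩, _⟩ := hc x hx
    exact pl_cont_re hs hg he
  have hcv₁ : ContinuousOn v₁ O := by
    intro x hx
    obtain ⟨γ, r, hs, _, hv, _⟩ := hc x hx
    exact pl_cont hs (hv.differentiableAt (ball_mem_nhds _ hs.1)).continuousAt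
  have hcv₂ : ContinuousOn v₂ O := by
    intro x hx
    obtain ⟨γ, r, hs, _, _, hv⟩ := hc x hx
    exact pl_cont hs (hv.differentiableAt (ball_mem_nhds _ hs.1)).continuousAt
  set a'' : ℝ := (φ y + a) / 2 with ha''
  have haa : a < a'' := by rw [ha'']; linarith
  set R : ℝ := max 1 (Real.exp ((A - a) / ε)) with hR
  have hKR := hcpt R
  have hsubO : {x ∈ O | c' ≤ φ x ∧ ‖v₁ x‖ ≤ R ∧ ‖v₂ x‖ ≤ R} ⊆ O := fun _ h => h.1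
  -- the superlevel set
  have hL : {x ∈ {x ∈ O | 1 < ‖v₁ x‖} | a'' ≤ φ x - ε * Real.log ‖v₁ x‖} =
      (({x ∈ O | c' ≤ φ x ∧ ‖v₁ x‖ ≤ R ∧ ‖v₂ x‖ ≤ R} ∩ (fun x => ‖v₁ x‖) ⁻¹' Ici 1) ∩
        (fun x => ‖v₂ x‖) ⁻¹' Iic 1) ∩ (fun x => φ x - ε * Real.log ‖v₁ x‖) ⁻¹' Ici a'' := by
    ext x
    constructor
    · rintro ⟨⟨hxO, hx1⟩, hx2⟩
      have hlx : 0 < Real.log ‖v₁ x‖ := Real.log_pos hx1
      have hφx : a < φ x := by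
        have := mul_pos hε0 hlx
        linarith
      have hv2 : ‖v₂ x‖ ≤ 1 := (hdisj x hxO).resolve_left (not_le.2 hx1)
      have hv1 : ‖v₁ x‖ ≤ R := by
        have h3 : Real.log ‖v₁ x‖ ≤ (A - a) / ε := by
          rw [le_div_iff₀ hε0]
          have := hA x hxO
          linarith [mul_comm ε (Real.log ‖v₁ x‖)]
        have h4 : ‖v₁ x‖ ≤ Real.exp ((A - a) / ε) := by
          rw [← Real.exp_log (one_pos.trans hx1)]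
          exact Real.exp_le_exp.2 h3
        exact h4.trans (le_max_right _ _)
      exact ⟨⟨⟨⟨hxO, hca.trans hφx.le, hv1, hv2.trans (le_max_left _ _)⟩, hx1.le⟩, hv2⟩, hx2⟩
    · rintro ⟨⟨⟨⟨hxO, hxc, _, _⟩, hx1⟩, hx2⟩, hx3⟩
      refine ⟨⟨hxO, ?_⟩, hx3⟩
      rcases lt_or_eq_of_le (show (1 : ℝ) ≤ ‖v₁ x‖ from hx1) with h | h
      · exact h
      · exfalso
        have h4 := h1 x hxO h.symm.le hx2 hxc
        have h5 : a'' ≤ φ x - ε * Real.log ‖v₁ x‖ := hx3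
        rw [← h, Real.log_one, mul_zero, sub_zero] at h5
        linarith
  have hLc : IsCompact {x ∈ {x ∈ O | 1 < ‖v₁ x‖} | a'' ≤ φ x - ε * Real.log ‖v₁ x‖} := by
    rw [hL]
    have hK1 : IsCompact ({x ∈ O | c' ≤ φ x ∧ ‖v₁ x‖ ≤ R ∧ ‖v₂ x‖ ≤ R} ∩
        (fun x => ‖v₁ x‖) ⁻¹' Ici 1) :=
      hKR.of_isClosed_subset ((hcv₁.norm.mono hsubO).preimage_isClosed_of_isClosed hKR.isClosed
        isClosed_Ici) inter_subset_left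
    have hK2 : IsCompact (({x ∈ O | c' ≤ φ x ∧ ‖v₁ x‖ ≤ R ∧ ‖v₂ x‖ ≤ R} ∩
        (fun x => ‖v₁ x‖) ⁻¹' Ici 1) ∩ (fun x => ‖v₂ x‖) ⁻¹' Iic 1) :=
      hK1.of_isClosed_subset ((hcv₂.norm.mono (inter_subset_left.trans
        hsubO)).preimage_isClosed_of_isClosed hK1.isClosed isClosed_Iic) inter_subset_left
    refine hK2.of_isClosed_subset (ContinuousOn.preimage_isClosed_of_isClosed ?_ hK2.isClosed
      isClosed_Ici) inter_subset_left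
    refine (hcφ.mono ?_).sub (continuousOn_const.mul (ContinuousOn.log (hcv₁.norm.mono ?_) ?_))
    · exact fun x h => h.1.1.1
    · exact fun x h => h.1.1.1
    · intro x h
      have : (1 : ℝ) ≤ ‖v₁ x‖ := h.1.2
      linarith
  refine pl_nm (pl_log (v := v₁) (fun x hx => ?_) ε) hLc (x₀ := y) ⟨hy, hy1⟩ ?_
  · obtain ⟨γ, r, hs, hg, hv, _⟩ := hc x hx
    exact ⟨γ, r, hs, hg, hv⟩
  · show a'' ≤ φ y - ε * Real.log ‖v₁ y‖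
    rw [hε1, ha'']
    linarith

private theorem pl_swap {O : Set (ℂ × Y)} {φ : ℂ × Y → ℝ} {v₁ v₂ : ℂ × Y → ℂ}
    (hc : PLC O φ v₁ v₂) : PLC O φ v₂ v₁ := by
  intro x hx
  obtain ⟨γ, r, hs, hg, h1, h2⟩ := hc x hx
  exact ⟨γ, r, hs, hg, h2, h1⟩

/-- either `φ ≤ c` or `φ` attains its maximum -/
private theorem pl_max [T2Space Y] {O : Set (ℂ × Y)} {φ : ℂ × Y → ℝ} {v₁ v₂ : ℂ × Y → ℂ}
    (hc : PLC O φ v₁ v₂) {A : ℝ} (hA : ∀ x ∈ O, φ x ≤ A)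
    (hdisj : ∀ x ∈ O, ‖v₁ x‖ ≤ 1 ∨ ‖v₂ x‖ ≤ 1) {c : ℝ}
    (hcpt : ∀ c' > c, ∀ R : ℝ, IsCompact {x ∈ O | c' ≤ φ x ∧ ‖v₁ x‖ ≤ R ∧ ‖v₂ x‖ ≤ R})
    {x₀ : ℂ × Y} (hx₀ : x₀ ∈ O) (h₀ : c < φ x₀) : ∃ x ∈ O, c < φ x ∧ ∀ y ∈ O, φ y ≤ φ x := by
  have hcφ : ContinuousOn φ O := by
    intro x hx
    obtain ⟨γ, r, hs, ⟨g, hg, he⟩, _⟩ := hc x hx
    exact pl_cont_re hs hg he
  obtain ⟨c', hc1, hc2⟩ := exists_between h₀
  have key : ∀ a : ℝ, c' ≤ a →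
      (∀ x ∈ O, ‖v₁ x‖ ≤ 1 → ‖v₂ x‖ ≤ 1 → c' ≤ φ x → φ x ≤ a) → ∀ x ∈ O, φ x ≤ a := by
    intro a ha h1 x hx
    rcases lt_or_ge 1 ‖v₁ x‖ with h | h
    · exact pl_half hc hA hdisj ha (hcpt c' hc1) h1 x hx h
    rcases lt_or_ge 1 ‖v₂ x‖ with h' | h'
    · refine pl_half (pl_swap hc) hA (fun x hx => (hdisj x hx).symm) ha (fun R => ?_)
        (fun x hx h2 h3 => h1 x hx h3 h2) x hx h'
      convert hcpt c' hc1 R using 1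
      ext z
      simp only [mem_ofPred_eq]
      tauto
    · rcases le_or_gt c' (φ x) with h2 | h2
      · exact h1 x hx h h' h2
      · exact h2.le.trans ha
  rcases eq_empty_or_nonempty {x ∈ O | c' ≤ φ x ∧ ‖v₁ x‖ ≤ 1 ∧ ‖v₂ x‖ ≤ 1} with he | hne
  · exfalso
    have := key c' le_rfl (fun x hx h1 h2 h3 => by
      have : x ∈ {x ∈ O | c' ≤ φ x ∧ ‖v₁ x‖ ≤ 1 ∧ ‖v₂ x‖ ≤ 1} := ⟨hx, h3, h1, h2⟩
      rw [he] at this
      exact this.elim) x₀ hx₀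
    linarith
  · obtain ⟨x₁, hx₁, hmax⟩ := (hcpt c' hc1 1).exists_isMaxOn hne (hcφ.mono fun _ h => h.1)
    refine ⟨x₁, hx₁.1, hc1.trans_le hx₁.2.1, key (φ x₁) hx₁.2.1 ?_⟩
    intro x hx h1 h2 h3
    exact hmax ⟨hx, h3, h1, h2⟩

end PLaux

theorem pl {Y : Type} [TopologicalSpace Y] [T2Space Y] (𝒳 : Set (ℂ × Y)) (f : ℂ × Y → ℝ)
    (υ₁ υ₂ : ℂ × Y → ℂ)
    (hloc : ∀ x ∈ 𝒳, ∃ γ r, Sec 𝒳 x γ r ∧
      (∃ g : ℂ → ℂ, DifferentiableOn ℂ g (ball x.1 r) ∧ ∀ t ∈ ball x.1 r, f (t, γ t) = (g t).re) ∧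
      DifferentiableOn ℂ (fun t => υ₁ (t, γ t)) (ball x.1 r) ∧
      DifferentiableOn ℂ (fun t => υ₂ (t, γ t)) (ball x.1 r))
    (hA : ∃ A, ∀ x ∈ 𝒳, f x ≤ A) (hB : ∃ B, ∀ x ∈ 𝒳, ‖x.1‖ ≤ B)
    (hdisj : ∀ x ∈ 𝒳, ‖υ₁ x‖ ≤ 1 ∨ ‖υ₂ x‖ ≤ 1) (c : ℝ)
    (hcpt : ∀ c' > c, ∀ R : ℝ, IsCompact {x ∈ 𝒳 | c' ≤ f x ∧ ‖υ₁ x‖ ≤ R ∧ ‖υ₂ x‖ ≤ R}) :
    ∀ x ∈ 𝒳, f x ≤ c := by
  intro x hx
  by_contra hlt
  rw [not_le] at hlt
  obtain ⟨A, hA⟩ := hA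
  obtain ⟨B, hB⟩ := hB
  obtain ⟨x₁, hx₁, hc₁, hmax⟩ := pl_max (v₁ := υ₁) (v₂ := υ₂) hloc hA hdisj hcpt hx hlt
  have hcf : ContinuousOn f 𝒳 := by
    intro x hx
    obtain ⟨γ, r, hs, ⟨g, hg, he⟩, _⟩ := hloc x hx
    exact pl_cont_re hs hg he
  -- sections inside the maximum set
  have hsec : ∀ x ∈ {x ∈ 𝒳 | f x = f x₁}, ∃ γ r, Sec {x ∈ 𝒳 | f x = f x₁} x γ r ∧
      DifferentiableOn ℂ (fun t => υ₁ (t, γ t)) (ball x.1 r) ∧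
      DifferentiableOn ℂ (fun t => υ₂ (t, γ t)) (ball x.1 r) := by
    rintro x ⟨hx, hfx⟩
    obtain ⟨γ, r, hs, ⟨g, hg, he⟩, h1, h2⟩ := hloc x hx
    have h3 := pl_const hs hg he (fun y hy => hfx ▸ hmax y hy)
    obtain ⟨r₁, hr₁, hb⟩ := Metric.eventually_nhds_iff_ball.1 h3
    have hsub : ball x.1 (min r r₁) ⊆ ball x.1 r := ball_subset_ball (min_le_left _ _)
    refine ⟨γ, min r r₁, pl_sec_mono hs (lt_min hs.1 hr₁) (min_le_left _ _) (fun _ h => h.1)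
      (fun t ht => ⟨hs.2.2.2.1 t (hsub ht), ?_⟩), h1.mono hsub, h2.mono hsub⟩
    show f (t, γ t) = f x₁
    rw [hb t (ball_subset_ball (min_le_right _ _) ht), hfx]
  have hC : PLC {x ∈ 𝒳 | f x = f x₁} (fun x => x.1.re) υ₁ υ₂ := by
    intro x hx
    obtain ⟨γ, r, hs, h1, h2⟩ := hsec x hx
    exact ⟨γ, r, hs, ⟨fun t => t, differentiableOn_id, fun t _ => rfl⟩, h1, h2⟩
  obtain ⟨x₂, hx₂, _, hmax₂⟩ := pl_max hC (A := B)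
    (fun x hx => (Complex.re_le_norm _).trans (hB x hx.1)) (fun x hx => hdisj x hx.1)
    (c := x₁.1.re - 1) (fun c' _ R => by
      have hK := hcpt (f x₁) hc₁ R
      have h1 : {x ∈ {x ∈ 𝒳 | f x = f x₁} | c' ≤ x.1.re ∧ ‖υ₁ x‖ ≤ R ∧ ‖υ₂ x‖ ≤ R} =
          ({x ∈ 𝒳 | f x₁ ≤ f x ∧ ‖υ₁ x‖ ≤ R ∧ ‖υ₂ x‖ ≤ R}) ∩ {x | c' ≤ x.1.re} := by
        ext z
        constructor
        · rintro ⟨⟨h1, h2⟩, h3, h4, h5⟩
          exact ⟨⟨h1, h2.ge, h4, h5⟩, h3⟩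
        · rintro ⟨⟨h1, h2, h4, h5⟩, h3⟩
          exact ⟨⟨h1, le_antisymm (hmax z h1) h2⟩, h3, h4, h5⟩
      rw [h1]
      exact hK.inter_right (isClosed_le continuous_const
        (Complex.continuous_re.comp continuous_fst))) (x₀ := x₁) ⟨hx₁, rfl⟩
      (by show x₁.1.re - 1 < x₁.1.re; linarith)
  obtain ⟨γ, r, hs, _⟩ := hsec x₂ hx₂
  have h6 : ∀ᶠ t in 𝓝 x₂.1, (t, γ t) ∈ {x ∈ 𝒳 | f x = f x₁} := by
    filter_upwards [ball_mem_nhds x₂.1 hs.1] with t ht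
    exact hs.2.2.2.1 t ht
  obtain ⟨y, hy, hlt'⟩ := pl_right h6
  exact absurd hlt' (not_lt.2 (hmax₂ y hy))

end Pool.Agent.FBL
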