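import Pool.Agent.FBL.Weier
import Pool.Agent.FBL.Coef

/-! # Extension across the cap, leaf `ℂ` -/

open Set Metric Topology Filter

namespace Pool.Agent.FBL

variable {E : Type} [NormedAddCommGroup E] [NormedSpace ℂ E] [FiniteDimensional ℂ E]
  [Nontrivial E]

private theorem ser_bound {Y : Type} [NormedAddCommGroup Y] [NormedSpace ℂ Y]
    [FiniteDimensional ℂ Y] {T S : Set E} {Q : E → ℂ} (cap : Cap T S Q) {V : Set (ℂ × E)}
    {h : ℂ × E → Y} (hd : DifferentiableOn ℂ h V) (hS : univ ×ˢ S ⊆ V)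
    {r : ℝ} (hr : 0 < r) (hcore : closedBall (0 : ℂ) r ×ˢ closure T ⊆ V) (hV : IsOpen V)
    {c : ℕ → E → Y} (hc : ∀ k, DifferentiableOn ℂ (c k) {s | ((0 : ℂ), s) ∈ V})
    (hcauchy : ∀ s, ∀ ρ > 0, (∀ u : ℂ, ‖u‖ ≤ ρ → (u, s) ∈ V) → ∀ M : ℝ,
        (∀ u : ℂ, ‖u‖ = ρ → ‖h (u, s)‖ ≤ M) → ∀ k, ‖c k s‖ ≤ M / ρ ^ k) {a : ℝ} (ha : 0 ≤ a) :
    ∃ M, 0 ≤ M ∧ ∀ k : ℕ, ∀ s ∈ T, ‖c k s‖ ≤ M / r ^ k * Real.exp (-(k * a * (Q s).re)) := by
  have : ProperSpace E := FiniteDimensional.proper ℂ E
  obtain ⟨W, hWo, hTW, hQ⟩ := cap.diff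
  have hcT : IsCompact (closure T) := cap.bdd.isCompact_closure
  obtain ⟨C, hC⟩ := ((isCompact_closedBall (0 : ℂ) r).prod hcT).exists_bound_of_continuousOn
    (hd.continuousOn.mono hcore)
  set ρ : ℝ := r * Real.exp a with hρ
  have hρ0 : 0 < ρ := by positivity
  obtain ⟨M, hM⟩ := ((isCompact_closedBall (0 : ℂ) ρ).prod cap.cptS).exists_bound_of_continuousOn
    (hd.continuousOn.mono ((prod_mono (subset_univ _) subset_rfl).trans hS))
  have hM0 : 0 ≤ max (max C M) 0 := le_max_right _ _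
  refine ⟨max (max C M) 0, hM0, fun k s hs => ?_⟩
  have hV0 : closure T ⊆ {s | ((0 : ℂ), s) ∈ V} := fun s hs =>
    hcore ⟨by simpa using hr.le, hs⟩
  have hφ : DifferentiableOn ℂ (fun s => Complex.exp ((k * a : ℝ) * Q s) • c k s) (closure T) := by
    refine DifferentiableOn.smul ?_ ((hc k).mono hV0)
    exact ((differentiableOn_const _).mul (hQ.mono hTW)).cexp
  have hnorm : ∀ s, ‖Complex.exp ((k * a : ℝ) * Q s)‖ = Real.exp (k * a * (Q s).re) := by
    intro s
    rw [Complex.norm_exp, Complex.re_ofReal_mul]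
  have key : ‖Complex.exp ((k * a : ℝ) * Q s) • c k s‖ ≤ max (max C M) 0 / r ^ k := by
    refine Complex.norm_le_of_forall_mem_frontier_norm_le cap.bdd hφ.diffContOnCl ?_
      (subset_closure hs)
    intro z hz
    have hzc : z ∈ closure T := frontier_subset_closure hz
    have hzT : z ∉ T := by
      rw [cap.isOpen.frontier_eq] at hz
      exact hz.2
    rw [norm_smul, hnorm]
    by_cases hp : 0 < (Q z).re
    · have hzS : z ∈ S := (cap.bdry z hzc hp).resolve_left hzT
      have h1 : ‖c k z‖ ≤ M / ρ ^ k := hcauchy z ρ hρ0 (fun u _ => hS ⟨mem_univ _, hzS⟩) M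
        (fun u hu => hM (u, z) ⟨by simpa using hu.le, hzS⟩) k
      have h2 : Real.exp (k * a * (Q z).re) ≤ Real.exp a ^ k := by
        rw [← Real.exp_nat_mul]
        apply Real.exp_le_exp.2
        have := mul_le_mul_of_nonneg_left (cap.le_one z hzc) (by positivity : 0 ≤ (k : ℝ) * a)
        linarith
      calc Real.exp (k * a * (Q z).re) * ‖c k z‖
          ≤ Real.exp a ^ k * (M / ρ ^ k) :=
            mul_le_mul h2 h1 (norm_nonneg _) (by positivity)
        _ = M / r ^ k := by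
            rw [hρ, mul_pow]
            field_simp
        _ ≤ max (max C M) 0 / r ^ k := by
            gcongr
            exact (le_max_right _ _).trans (le_max_left _ _)
    · have h1 : ‖c k z‖ ≤ C / r ^ k := hcauchy z r hr
        (fun u hu => hcore ⟨by simpa using hu, hzc⟩) C
        (fun u hu => hC (u, z) ⟨by simpa using hu.le, hzc⟩) k
      have h2 : Real.exp (k * a * (Q z).re) ≤ 1 := by
        rw [Real.exp_le_one_iff]
        exact mul_nonpos_of_nonneg_of_nonpos (by positivity) (not_lt.1 hp)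
      calc Real.exp (k * a * (Q z).re) * ‖c k z‖ ≤ 1 * ‖c k z‖ :=
            mul_le_mul_of_nonneg_right h2 (norm_nonneg _)
        _ = ‖c k z‖ := one_mul _
        _ ≤ C / r ^ k := h1
        _ ≤ max (max C M) 0 / r ^ k := by
            gcongr
            exact (le_max_left _ _).trans (le_max_left _ _)
  rw [norm_smul, hnorm] at key
  rw [Real.exp_neg, ← div_eq_mul_inv, le_div_iff₀ (Real.exp_pos _), mul_comm]
  exact key

theorem ext_plane {Y : Type} [NormedAddCommGroup Y] [NormedSpace ℂ Y] [FiniteDimensional ℂ Y]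
    {T S : Set E} {Q : E → ℂ} (cap : Cap T S Q) {V : Set (ℂ × E)} (hV : IsOpen V)
    {h : ℂ × E → Y} (hd : DifferentiableOn ℂ h V) (hS : univ ×ˢ S ⊆ V) {r : ℝ} (hr : 0 < r)
    (hcore : closedBall (0 : ℂ) r ×ˢ closure T ⊆ V) :
    ∃ H : ℂ × E → Y, DifferentiableOn ℂ H (univ ×ˢ T) ∧
      (∀ ρ : ℝ, ∃ δ > 0, ∀ u : ℂ, ‖u‖ ≤ ρ → ∀ s ∈ T, infDist s S < δ →
        (u, s) ∈ V ∧ H (u, s) = h (u, s)) ∧
      ∀ u : ℂ, ‖u‖ < r → ∀ s ∈ T, H (u, s) = h (u, s) := by
  have : CompleteSpace Y := FiniteDimensional.complete ℂ Y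
  obtain ⟨c, -, hc, hcauchy, hsum⟩ := exists_coeff hV hd
  obtain ⟨W, hWo, hTW, hQ⟩ := cap.diff
  have hV0 : closure T ⊆ {s | ((0 : ℂ), s) ∈ V} := fun s hs =>
    hcore ⟨by simpa using hr.le, hs⟩
  refine ⟨fun x => ∑' k : ℕ, x.1 ^ k • c k x.2, ?_, ?_, ?_⟩
  · rintro ⟨u₀, s₀⟩ ⟨-, hs₀⟩
    have hp₀ : 0 < (Q s₀).re := cap.pos s₀ hs₀
    set η : ℝ := (Q s₀).re / 2 with hη
    have hη0 : 0 < η := by positivity
    set U : ℝ := ‖u₀‖ + 1 with hU
    have hU0 : 0 < U := by positivity
    set a : ℝ := max 0 (Real.log (2 * U / r) / η) with ha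
    have ha0 : 0 ≤ a := le_max_left _ _
    have ha1 : U / r * Real.exp (-(a * η)) ≤ 1 / 2 := by
      have h1 : Real.log (2 * U / r) ≤ a * η := by
        rw [← div_le_iff₀ hη0]
        exact le_max_right _ _
      have h2 : 2 * U / r ≤ Real.exp (a * η) := by
        rw [← Real.log_le_iff_le_exp (by positivity)]
        exact h1
      rw [Real.exp_neg, ← div_eq_mul_inv, div_le_iff₀ (Real.exp_pos _)]
      have h3 : U / r = 2 * U / r / 2 := by ring
      rw [h3]
      linarith
    obtain ⟨M, hM0, hM⟩ := ser_bound cap hd hS hr hcore hV hc hcauchy ha0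
    let O : Set (ℂ × E) := ball 0 U ×ˢ (T ∩ {s | η < (Q s).re})
    have hO : IsOpen O := by
      refine isOpen_ball.prod ?_
      have hcont : ContinuousOn (fun s => (Q s).re) T :=
        Complex.continuous_re.comp_continuousOn (hQ.continuousOn.mono (subset_closure.trans hTW))
      exact hcont.isOpen_inter_preimage cap.isOpen isOpen_Ioi
    have hmem : (u₀, s₀) ∈ O := by
      refine ⟨?_, hs₀, ?_⟩
      · rw [mem_ball_zero_iff]
        exact lt_add_one _
      · show η < (Q s₀).re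
        rw [hη]; linarith
    have hdiff : DifferentiableOn ℂ (fun x : ℂ × E => ∑' k : ℕ, x.1 ^ k • c k x.2) O := by
      refine weier hO (u := fun k => M * (1 / 2) ^ k) ?_ ?_ ?_
      · exact (summable_geometric_of_lt_one (by norm_num) (by norm_num)).mul_left M
      · intro k
        refine DifferentiableOn.smul ?_ ?_
        · exact (differentiable_fst.pow k).differentiableOn
        · have h2 : MapsTo (Prod.snd : ℂ × E → E) O {s | ((0 : ℂ), s) ∈ V} := fun x hx =>
            hV0 (subset_closure hx.2.1)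
          exact (hc k).comp differentiable_snd.differentiableOn h2
      · rintro k ⟨u, s⟩ ⟨hu, hs, hps⟩
        rw [mem_ball_zero_iff] at hu
        have hps' : η < (Q s).re := hps
        rw [norm_smul, norm_pow]
        have h1 := hM k s hs
        have h2 : Real.exp (-(k * a * (Q s).re)) ≤ Real.exp (-(a * η)) ^ k := by
          rw [← Real.exp_nat_mul]
          apply Real.exp_le_exp.2
          have := mul_le_mul_of_nonneg_left hps'.le (by positivity : 0 ≤ (k : ℝ) * a)
          linarith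
        calc ‖u‖ ^ k * ‖c k s‖
            ≤ U ^ k * (M / r ^ k * Real.exp (-(a * η)) ^ k) := by
              refine mul_le_mul (pow_le_pow_left₀ (norm_nonneg _) hu.le k) ?_ (norm_nonneg _)
                (by positivity)
              exact h1.trans (mul_le_mul_of_nonneg_left h2 (by positivity))
          _ = M * (U / r * Real.exp (-(a * η))) ^ k := by
              rw [mul_pow, div_pow]
              ring
          _ ≤ M * (1 / 2) ^ k := by
              refine mul_le_mul_of_nonneg_left ?_ hM0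
              exact pow_le_pow_left₀ (by positivity) ha1 k
    exact (hdiff.differentiableAt (hO.mem_nhds hmem)).differentiableWithinAt
  · intro ρ
    set ρ' : ℝ := max ρ 0 + 1 with hρ'
    have hρ0 : 0 < ρ' := by positivity
    have hKV : closedBall (0 : ℂ) ρ' ×ˢ S ⊆ V :=
      (prod_mono (subset_univ _) subset_rfl).trans hS
    obtain ⟨δ, hδ, hδV⟩ := ((isCompact_closedBall (0 : ℂ) ρ').prod
      cap.cptS).exists_thickening_subset_open hV hKV
    refine ⟨δ, hδ, fun u hu s hs hd' => ?_⟩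
    obtain ⟨s', hs', hss'⟩ := (infDist_lt_iff cap.neS).1 hd'
    have hall : ∀ u : ℂ, ‖u‖ ≤ ρ' → (u, s) ∈ V := by
      intro u hu
      refine hδV (mem_thickening_iff.2 ⟨(u, s'), ⟨by simpa using hu, hs'⟩, ?_⟩)
      rw [Prod.dist_eq, dist_self]
      exact max_lt hδ hss'
    have hlt : ‖u‖ < ρ' := by
      rw [hρ']
      exact (hu.trans (le_max_left _ _)).trans_lt (lt_add_one _)
    exact ⟨hall u hlt.le, (hsum s ρ' hρ0 (fun u hu => hall u hu.le) u hlt).tsum_eq⟩
  · intro u hu s hs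
    exact (hsum s r hr (fun u hu => hcore ⟨by simpa using hu.le, subset_closure hs⟩) u hu).tsum_eq

end Pool.Agent.FBL
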