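import Pool.Agent.FBL.Ser

/-! # Extension across the cap, leaf `ℂ` or `ℂ ∖ {0}` -/

open Set Metric Topology Filter

namespace Pool.Agent.FBL

variable {E : Type} [NormedAddCommGroup E] [NormedSpace ℂ E] [FiniteDimensional ℂ E]
  [Nontrivial E]

theorem star_log_two_pos : (0 : ℝ) < Real.log 2 := Real.log_pos (by norm_num)

theorem star_exp_half_le : Real.exp (Real.log 2 / 2) ≤ 2 := by
  calc Real.exp (Real.log 2 / 2) ≤ Real.exp (Real.log 2) := by
        apply Real.exp_le_exp.2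
        linarith [star_log_two_pos]
    _ = 2 := Real.exp_log (by norm_num)

theorem star_exp_half_lt : Real.exp (Real.log 2 / 2) < 2 := by
  calc Real.exp (Real.log 2 / 2) < Real.exp (Real.log 2) := by
        apply Real.exp_lt_exp.2
        linarith [star_log_two_pos]
    _ = 2 := Real.exp_log (by norm_num)

/-- the real part of the logarithm on the exhaustion of `ℂ ∖ {0}` -/
theorem star_abs_log_le {u : ℂ} {ρ : ℝ} (hu : u ∈ K true ρ) : |(Complex.log u).re| ≤ Real.log ρ := by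
  have h0 : 0 < ‖u‖ := norm_pos_iff.2 (hu.1 rfl)
  have h1 : ‖u‖ ≤ ρ := hu.2.1
  have h2 : ‖u‖⁻¹ ≤ ρ := by
    have := hu.2.2
    simpa [e2] using this
  rw [Complex.log_re, abs_le]
  constructor
  · have h3 := Real.log_le_log (inv_pos.2 h0) h2
    rw [Real.log_inv] at h3
    linarith
  · exact Real.log_le_log h0 h1

theorem star_exp_mem_K {w : ℂ} (hw : |w.re| ≤ Real.log 2) : Complex.exp w ∈ K true 2 := by
  rw [abs_le] at hw
  have h2 : Real.exp (Real.log 2) = 2 := Real.exp_log (by norm_num)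
  have h := mem_K_exp true (u := Complex.exp w) (R := Real.log 2) (by
    rw [Complex.norm_exp]
    exact Real.exp_le_exp.2 hw.1) (by
    rw [Complex.norm_exp]
    exact Real.exp_le_exp.2 hw.2)
  rwa [h2] at h

theorem star_diff_slice {X Y : Type} [NormedAddCommGroup X] [NormedSpace ℂ X]
    [NormedAddCommGroup Y] [NormedSpace ℂ Y] {O : Set (ℂ × X)} {f : ℂ × X → Y}
    (hO : IsOpen O) (hf : DifferentiableOn ℂ f O) (s : X) :
    DifferentiableOn ℂ (fun w : ℂ => f (w, s)) {w | (w, s) ∈ O} := by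
  intro w hw
  have h1 : DifferentiableAt ℂ f (w, s) := hf.differentiableAt (hO.mem_nhds hw)
  have h2 : DifferentiableAt ℂ (fun w : ℂ => ((w, s) : ℂ × X)) w :=
    differentiableAt_id.prodMk (differentiableAt_const s)
  exact (DifferentiableAt.comp w h1 h2).differentiableWithinAt

/-- the case of `ℂ` -/
theorem star_false {Y : Type} [NormedAddCommGroup Y] [NormedSpace ℂ Y] [FiniteDimensional ℂ Y]
    {T S : Set E} {Q : E → ℂ} (cap : Cap T S Q) {V : Set (ℂ × E)} (hV : IsOpen V)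
    {h : ℂ × E → Y} (hd : DifferentiableOn ℂ h V) (hS : Leaf false ×ˢ S ⊆ V)
    (hcore : K false 2 ×ˢ closure T ⊆ V) :
    ∃ H : ℂ × E → Y, DifferentiableOn ℂ H (Leaf false ×ˢ T) ∧
      (∀ ρ : ℝ, ∃ δ > 0, ∀ u ∈ K false ρ, ∀ s ∈ T, infDist s S < δ →
        (u, s) ∈ V ∧ H (u, s) = h (u, s)) ∧
      ∃ η > 0, ∀ u ∈ K false (Real.exp η), ∀ s ∈ T, (u, s) ∈ V ∧ H (u, s) = h (u, s) := by
  have hL : Leaf false = univ := by ext u; simp [Leaf]
  have hS' : (univ : Set ℂ) ×ˢ S ⊆ V := by rwa [hL] at hS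
  have hK : ∀ u : ℂ, ‖u‖ ≤ 2 → u ∈ K false 2 := by
    intro u hu
    refine ⟨by simp [Leaf], hu, ?_⟩
    simp [e2]
  obtain ⟨H, h1, h2, h3⟩ := ext_plane cap hV hd hS' (r := 2) (by norm_num) (by
    rintro ⟨u, s⟩ ⟨hu, hs⟩
    exact hcore ⟨hK u (mem_closedBall_zero_iff.1 hu), hs⟩)
  refine ⟨H, by rwa [hL], ?_, Real.log 2 / 2, by linarith [star_log_two_pos], ?_⟩
  · intro ρ
    obtain ⟨δ, hδ, h4⟩ := h2 ρ
    exact ⟨δ, hδ, fun u hu s hs hd => h4 u hu.2.1 s hs hd⟩
  · intro u hu s hs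
    have h5 : ‖u‖ < 2 := hu.2.1.trans_lt star_exp_half_lt
    exact ⟨hcore ⟨hK u h5.le, subset_closure hs⟩, h3 u h5 s hs⟩

/-- the case of `ℂ ∖ {0}` -/
theorem star_true {Y : Type} [NormedAddCommGroup Y] [NormedSpace ℂ Y] [FiniteDimensional ℂ Y]
    {T S : Set E} {Q : E → ℂ} (cap : Cap T S Q) {V : Set (ℂ × E)} (hV : IsOpen V)
    {h : ℂ × E → Y} (hd : DifferentiableOn ℂ h V) (hS : Leaf true ×ˢ S ⊆ V)
    (hcore : K true 2 ×ˢ closure T ⊆ V) :
    ∃ H : ℂ × E → Y, DifferentiableOn ℂ H (Leaf true ×ˢ T) ∧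
      (∀ ρ : ℝ, ∃ δ > 0, ∀ u ∈ K true ρ, ∀ s ∈ T, infDist s S < δ →
        (u, s) ∈ V ∧ H (u, s) = h (u, s)) ∧
      ∃ η > 0, ∀ u ∈ K true (Real.exp η), ∀ s ∈ T, (u, s) ∈ V ∧ H (u, s) = h (u, s) := by
  -- the covering map
  set e : ℂ × E → ℂ × E := fun x => (Complex.exp x.1, x.2) with he
  have hed : Differentiable ℂ e := by
    intro x
    exact (differentiableAt_fst.cexp).prodMk differentiableAt_snd
  have hV' : IsOpen (e ⁻¹' V) := hV.preimage hed.continuous
  have hd' : DifferentiableOn ℂ (fun x => h (e x)) (e ⁻¹' V) := by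
    intro x hx
    exact (DifferentiableAt.comp x (hd.differentiableAt (hV.mem_nhds hx))
      (hed x)).differentiableWithinAt
  have hS' : (univ : Set ℂ) ×ˢ S ⊆ e ⁻¹' V := by
    rintro ⟨w, s⟩ ⟨-, hs⟩
    exact hS ⟨fun _ => Complex.exp_ne_zero w, hs⟩
  have hstrip : ∀ w : ℂ, |w.re| ≤ Real.log 2 → ∀ s ∈ closure T, (w, s) ∈ e ⁻¹' V :=
    fun w hw s hs => hcore ⟨star_exp_mem_K hw, hs⟩
  obtain ⟨H, h1, h2, h3⟩ := ext_plane cap hV' hd' hS' (r := Real.log 2) star_log_two_pos (by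
    rintro ⟨w, s⟩ ⟨hw, hs⟩
    exact hstrip w ((Complex.abs_re_le_norm w).trans (mem_closedBall_zero_iff.1 hw)) s hs)
  have hOT : IsOpen ((univ : Set ℂ) ×ˢ T) := isOpen_univ.prod cap.isOpen
  -- slices of `H`
  have hent : ∀ s ∈ T, Differentiable ℂ (fun w : ℂ => H (w, s)) := by
    intro s hs w
    have := star_diff_slice hOT h1 s
    have h4 : {w : ℂ | (w, s) ∈ (univ : Set ℂ) ×ˢ T} = univ := by
      ext w; simp [hs]
    rw [h4] at this
    exact this.differentiableAt univ_mem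
  -- equality on the strip
  have hSopen : IsOpen {w : ℂ | |w.re| < Real.log 2} :=
    isOpen_lt (Complex.continuous_re.abs) continuous_const
  have hSconv : Convex ℝ {w : ℂ | |w.re| < Real.log 2} := by
    have : {w : ℂ | |w.re| < Real.log 2} = Complex.reLm ⁻¹' (Ioo (-Real.log 2) (Real.log 2)) := by
      ext w
      simp [abs_lt]
    rw [this]
    exact (convex_Ioo _ _).linear_preimage _
  have heq : ∀ s ∈ T, ∀ w : ℂ, |w.re| < Real.log 2 → H (w, s) = h (e (w, s)) := by
    intro s hs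
    have hA1 : AnalyticOnNhd ℂ (fun w : ℂ => H (w, s)) {w : ℂ | |w.re| < Real.log 2} :=
      ((hent s hs).differentiableOn).analyticOnNhd hSopen
    have hA2 : AnalyticOnNhd ℂ (fun w : ℂ => h (e (w, s))) {w : ℂ | |w.re| < Real.log 2} := by
      refine DifferentiableOn.analyticOnNhd ?_ hSopen
      exact (star_diff_slice hV' hd' s).mono fun w hw => hstrip w (le_of_lt hw) s
        (subset_closure hs)
    have h0 : (0 : ℂ) ∈ {w : ℂ | |w.re| < Real.log 2} := by
      simpa using star_log_two_pos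
    have hev : (fun w : ℂ => H (w, s)) =ᶠ[𝓝 0] (fun w : ℂ => h (e (w, s))) := by
      filter_upwards [ball_mem_nhds (0 : ℂ) star_log_two_pos] with w hw
      exact h3 w (mem_ball_zero_iff.1 hw) s hs
    have := hA1.eqOn_of_preconnected_of_eventuallyEq hA2 hSconv.isPreconnected h0 hev
    exact fun w hw => this hw
  -- periodicity
  have hper1 : ∀ s ∈ T, ∀ w : ℂ, H (w + 2 * Real.pi * Complex.I, s) = H (w, s) := by
    intro s hs
    have hA1 : AnalyticOnNhd ℂ (fun w : ℂ => H (w, s)) univ :=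
      ((hent s hs).differentiableOn).analyticOnNhd isOpen_univ
    have hA2 : AnalyticOnNhd ℂ (fun w : ℂ => H (w + 2 * Real.pi * Complex.I, s)) univ := by
      refine DifferentiableOn.analyticOnNhd (Differentiable.differentiableOn ?_) isOpen_univ
      exact (hent s hs).comp (differentiable_id.add_const _)
    have hev : (fun w : ℂ => H (w + 2 * Real.pi * Complex.I, s)) =ᶠ[𝓝 0]
        (fun w : ℂ => H (w, s)) := by
      filter_upwards [ball_mem_nhds (0 : ℂ) star_log_two_pos] with w hw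
      have hw' : |w.re| < Real.log 2 :=
        (Complex.abs_re_le_norm w).trans_lt (mem_ball_zero_iff.1 hw)
      have hre : (w + 2 * Real.pi * Complex.I).re = w.re := by simp
      rw [heq s hs w hw', heq s hs (w + 2 * Real.pi * Complex.I) (by rw [hre]; exact hw')]
      simp only [he, Complex.exp_periodic w]
    have := hA2.eqOn_of_preconnected_of_eventuallyEq hA1 isPreconnected_univ (mem_univ 0) hev
    exact fun w => this (mem_univ w)
  have hper : ∀ s ∈ T, ∀ w w' : ℂ, Complex.exp w = Complex.exp w' → H (w, s) = H (w', s) := by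
    intro s hs w w' hww
    obtain ⟨n, hn⟩ := Complex.exp_eq_exp_iff_exists_int.1 hww
    have hp : Function.Periodic (fun w : ℂ => H (w, s)) (2 * Real.pi * Complex.I) :=
      fun w => hper1 s hs w
    have := hp.int_mul n w'
    rw [hn]
    exact this
  refine ⟨fun x => H (Complex.log x.1, x.2), ?_, ?_, Real.log 2 / 2,
    by linarith [star_log_two_pos], ?_⟩
  · rintro ⟨u₀, s₀⟩ ⟨hu₀, hs₀⟩
    have hu0 : u₀ ≠ 0 := hu₀ rfl
    refine DifferentiableAt.differentiableWithinAt ?_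
    set g : ℂ × E → ℂ × E := fun x => (Complex.log (x.1 / u₀) + Complex.log u₀, x.2) with hg
    have hgd : DifferentiableAt ℂ g (u₀, s₀) := by
      have h9 : DifferentiableAt ℂ (fun x : ℂ × E => x.1 / u₀) (u₀, s₀) := by
        simp only [div_eq_mul_inv]
        exact differentiableAt_fst.mul_const _
      have h10 : DifferentiableAt ℂ (fun x : ℂ × E => Complex.log (x.1 / u₀)) (u₀, s₀) :=
        h9.clog (by simp [div_self hu0])
      have h11 : DifferentiableAt ℂ
          (fun x : ℂ × E => Complex.log (x.1 / u₀) + Complex.log u₀) (u₀, s₀) :=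
        h10.add (differentiableAt_const _)
      exact h11.prodMk differentiableAt_snd
    have hHd : DifferentiableAt ℂ H (g (u₀, s₀)) :=
      h1.differentiableAt (hOT.mem_nhds ⟨mem_univ _, hs₀⟩)
    have hcomp : DifferentiableAt ℂ (fun x => H (g x)) (u₀, s₀) :=
      DifferentiableAt.comp (u₀, s₀) hHd hgd
    refine hcomp.congr_of_eventuallyEq ?_
    have hO : IsOpen (Leaf true ×ˢ T) := (isOpen_Leaf true).prod cap.isOpen
    filter_upwards [hO.mem_nhds ⟨hu₀, hs₀⟩] with x hx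
    have hx0 : x.1 ≠ 0 := hx.1 rfl
    refine hper x.2 hx.2 _ _ ?_
    rw [Complex.exp_add, Complex.exp_log hx0, Complex.exp_log (div_ne_zero hx0 hu0),
      Complex.exp_log hu0, div_mul_cancel₀ _ hu0]
  · intro ρ
    obtain ⟨δ, hδ, h4⟩ := h2 (Real.log ρ + Real.pi)
    refine ⟨δ, hδ, fun u hu s hs hsd => ?_⟩
    have hu0 : u ≠ 0 := hu.1 rfl
    have h5 : ‖Complex.log u‖ ≤ Real.log ρ + Real.pi := by
      refine (Complex.norm_le_abs_re_add_abs_im _).trans (add_le_add (star_abs_log_le hu) ?_)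
      rw [Complex.log_im]
      exact Complex.abs_arg_le_pi u
    obtain ⟨h6, h7⟩ := h4 (Complex.log u) h5 s hs hsd
    have h8 : e (Complex.log u, s) = (u, s) := by
      simp only [he, Complex.exp_log hu0]
    refine ⟨?_, ?_⟩
    · have : e (Complex.log u, s) ∈ V := h6
      rwa [h8] at this
    · simp only
      rw [h7, h8]
  · intro u hu s hs
    have hu0 : u ≠ 0 := hu.1 rfl
    have h5 : |(Complex.log u).re| < Real.log 2 := by
      refine (star_abs_log_le hu).trans_lt ?_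
      rw [Real.log_exp]
      linarith [star_log_two_pos]
    have h8 : e (Complex.log u, s) = (u, s) := by
      simp only [he, Complex.exp_log hu0]
    refine ⟨hcore ⟨K_mono true star_exp_half_le hu, subset_closure hs⟩, ?_⟩
    simp only
    rw [heq s hs _ h5, h8]

theorem ext_leaf {Y : Type} [NormedAddCommGroup Y] [NormedSpace ℂ Y] [FiniteDimensional ℂ Y]
    (b : Bool) {T S : Set E} {Q : E → ℂ} (cap : Cap T S Q) {V : Set (ℂ × E)} (hV : IsOpen V)
    {h : ℂ × E → Y} (hd : DifferentiableOn ℂ h V) (hS : Leaf b ×ˢ S ⊆ V)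
    (hcore : K b 2 ×ˢ closure T ⊆ V) :
    ∃ H : ℂ × E → Y, DifferentiableOn ℂ H (Leaf b ×ˢ T) ∧
      (∀ ρ : ℝ, ∃ δ > 0, ∀ u ∈ K b ρ, ∀ s ∈ T, infDist s S < δ →
        (u, s) ∈ V ∧ H (u, s) = h (u, s)) ∧
      ∃ η > 0, ∀ u ∈ K b (Real.exp η), ∀ s ∈ T, (u, s) ∈ V ∧ H (u, s) = h (u, s) := by
  cases b
  · exact star_false cap hV hd hS hcore
  · exact star_true cap hV hd hS hcore

end Pool.Agent.FBL
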