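import Pool.Agent.FBL.Defs

/-! # Weierstrass M-test for holomorphic maps of several variables -/

open Set Metric Topology Filter

namespace Pool.Agent.FBL

private theorem weier_cauchy {X Y : Type} [NormedAddCommGroup X] [NormedSpace ℂ X]
    [NormedAddCommGroup Y] [NormedSpace ℂ Y] {f : X → Y} {w : X} {R C : ℝ} (hR : 0 < R)
    (hd : ∀ z ∈ closedBall w R, DifferentiableAt ℂ f z)
    (hC : ∀ z ∈ closedBall w R, ‖f z‖ ≤ C) : ‖fderiv ℂ f w‖ ≤ C / R := by
  have hC0 : 0 ≤ C := (norm_nonneg _).trans (hC w (mem_closedBall_self hR.le))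
  refine ContinuousLinearMap.opNorm_le_bound _ (by positivity) fun u => ?_
  rcases eq_or_ne u 0 with rfl | hu
  · simp
  have hu0 : 0 < ‖u‖ := norm_pos_iff.2 hu
  have hmem : ∀ t : ℂ, ‖t‖ ≤ R / ‖u‖ → w + t • u ∈ closedBall w R := by
    intro t ht
    rw [mem_closedBall, dist_eq_norm, add_sub_cancel_left, norm_smul]
    rwa [le_div_iff₀ hu0] at ht
  have hderiv : ∀ t : ℂ, ‖t‖ ≤ R / ‖u‖ →
      HasDerivAt (fun t : ℂ => f (w + t • u)) (fderiv ℂ f (w + t • u) u) t := by
    intro t ht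
    have h1 : HasFDerivAt f (fderiv ℂ f (w + t • u)) (w + t • u) :=
      (hd _ (hmem t ht)).hasFDerivAt
    have h2 : HasDerivAt (fun t : ℂ => w + t • u) u t := by
      simpa using ((hasDerivAt_id t).smul_const u).const_add w
    exact h1.comp_hasDerivAt t h2
  have h0 := hderiv 0 (by simpa using (by positivity : 0 ≤ R / ‖u‖))
  have h3 : ‖deriv (fun t : ℂ => f (w + t • u)) 0‖ ≤ C / (R / ‖u‖) := by
    refine Complex.norm_deriv_le_of_forall_mem_sphere_norm_le (by positivity) ?_ ?_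
    · refine DifferentiableOn.diffContOnCl ?_
      intro t ht
      rw [closure_ball _ (by positivity : R / ‖u‖ ≠ 0), mem_closedBall_zero_iff] at ht
      exact (hderiv t ht).differentiableAt.differentiableWithinAt
    · intro t ht
      rw [mem_sphere_zero_iff_norm] at ht
      exact hC _ (hmem t ht.le)
  rw [h0.deriv] at h3
  simp only [zero_smul, add_zero] at h3
  calc ‖fderiv ℂ f w u‖ ≤ C / (R / ‖u‖) := h3
    _ = C / R * ‖u‖ := by
      field_simp

/-- a normally convergent series of holomorphic maps is holomorphic -/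
theorem weier {X Y : Type} [NormedAddCommGroup X] [NormedSpace ℂ X] [NormedAddCommGroup Y]
    [NormedSpace ℂ Y] [CompleteSpace Y] {O : Set X} (hO : IsOpen O) {f : ℕ → X → Y} {u : ℕ → ℝ}
    (hu : Summable u) (hf : ∀ k, DifferentiableOn ℂ (f k) O) (hb : ∀ k, ∀ x ∈ O, ‖f k x‖ ≤ u k) :
    DifferentiableOn ℂ (fun x => ∑' k, f k x) O := by
  intro x₀ hx₀
  obtain ⟨R', hR', hR's⟩ := Metric.isOpen_iff.1 hO x₀ hx₀
  obtain ⟨R, hR, hRR'⟩ : ∃ R : ℝ, 0 < R ∧ 2 * R < R' := ⟨R' / 4, by positivity, by linarith⟩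
  have hda : ∀ k, ∀ z ∈ O, DifferentiableAt ℂ (f k) z := fun k z hz =>
    (hf k).differentiableAt (hO.mem_nhds hz)
  have hsub : ∀ w ∈ ball x₀ R, closedBall w R ⊆ O := by
    intro w hw x hx
    apply hR's
    rw [mem_ball] at hw ⊢
    rw [mem_closedBall] at hx
    linarith [dist_triangle x w x₀]
  have hpre : IsPreconnected (ball x₀ R) := by
    let : NormedSpace ℝ X := NormedSpace.restrictScalars ℝ ℂ X
    exact (convex_ball x₀ R).isPreconnected
  have h1 : HasFDerivAt (fun y => ∑' k, f k y) (∑' k, fderiv ℂ (f k) x₀) x₀ := by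
    refine hasFDerivAt_tsum_of_isPreconnected (𝕜 := ℂ) (hu.div_const R) isOpen_ball hpre
      (f' := fun k x => fderiv ℂ (f k) x) ?_ ?_ (mem_ball_self hR) ?_ (mem_ball_self hR)
    · intro k x hx
      exact (hda k x (hsub x hx (mem_closedBall_self hR.le))).hasFDerivAt
    · intro k x hx
      exact weier_cauchy hR (fun z hz => hda k z (hsub x hx hz)) fun z hz => hb k z (hsub x hx hz)
    · exact Summable.of_norm_bounded hu fun k => hb k x₀ hx₀
  exact h1.differentiableAt.differentiableWithinAt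

end Pool.Agent.FBL
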